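import Pool.Agent.Y36.FD.PLF

/-!
# The embedding of the square of Thompson's group `F` in `F`
-/

set_option autoImplicit false

namespace Pool.Agent.Y36.FD

theorem A_mem : thA ∈ thF := Subgroup.subset_closure (by simp)
theorem B_mem : thB ∈ thF := Subgroup.subset_closure (by simp)

theorem fix_of_mem {f : Equiv.Perm ℝ} (hf : f ∈ thF) : ∀ t : ℝ, t ≤ 0 ∨ 1 ≤ t → f t = t := by
  induction hf using Subgroup.closure_induction with
  | mem x hx =>
    intro t ht
    simp only [Set.mem_insert_iff, Set.mem_singleton_iff] at hx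
    rcases hx with rfl | rfl <;> rcases ht with ht | ht
    · exact A0 t ht
    · exact A4 t ht
    · exact B0 t (by linarith)
    · exact B5 t ht
  | one => intro t _; rfl
  | mul x y _ _ hx hy =>
    intro t ht
    rw [Equiv.Perm.mul_apply, hy t ht, hx t ht]
  | inv x _ hx =>
    intro t ht
    rw [Equiv.Perm.inv_eq_iff_eq]
    exact (hx t ht).symm

theorem inR_mem {f : Equiv.Perm ℝ} (hf : f ∈ thF) : inR f ∈ thF := by
  have h : thF ≤ thF.comap inR := by
    unfold thF
    rw [Subgroup.closure_le]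
    rintro x hx
    simp only [Set.mem_insert_iff, Set.mem_singleton_iff] at hx
    rcases hx with rfl | rfl
    · show inR thA ∈ thF
      rw [inR_A]
      exact B_mem
    · show inR thB ∈ thF
      have h1 : inR thB = thA⁻¹ * (thB * thA) := by
        rw [← inR_B, inv_mul_cancel_left]
      rw [h1]
      exact thF.mul_mem (thF.inv_mem A_mem) (thF.mul_mem B_mem A_mem)
  exact h hf

theorem inL_A_mem : inL thA ∈ thF := by
  have h1 : inL thA = thA * thA * (thA * thB)⁻¹ := by
    rw [← inL_A, mul_inv_cancel_right]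
  rw [h1]
  exact thF.mul_mem (thF.mul_mem A_mem A_mem) (thF.inv_mem (thF.mul_mem A_mem B_mem))

theorem inL_mem {f : Equiv.Perm ℝ} (hf : f ∈ thF) : inL f ∈ thF := by
  have h : thF ≤ thF.comap inL := by
    rw [thF, Subgroup.closure_le]
    rintro x hx
    simp only [Set.mem_insert_iff, Set.mem_singleton_iff] at hx
    rcases hx with rfl | rfl
    · exact inL_A_mem
    · show inL thB ∈ thF
      have h1 : inL thB = thA * inR (inL thA) * thA⁻¹ := by
        rw [← inL_B, mul_inv_cancel_right]
      rw [h1]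
      exact thF.mul_mem (thF.mul_mem A_mem (inR_mem inL_A_mem)) (thF.inv_mem A_mem)
  exact h hf

theorem inR_fix {g : Equiv.Perm ℝ} (hg : g ∈ thF) {t : ℝ} (ht : t ≤ 1 / 2) : inR g t = t := by
  rw [inR_apply, fix_of_mem hg _ (Or.inl (by linarith))]
  ring

theorem inL_fix {f : Equiv.Perm ℝ} (hf : f ∈ thF) {t : ℝ} (ht : 1 / 2 ≤ t) : inL f t = t := by
  rw [inL_apply, fix_of_mem hf _ (Or.inr (by linarith))]
  ring

theorem comm_LR {f g : Equiv.Perm ℝ} (hf : f ∈ thF) (hg : g ∈ thF) :
    Commute (inL f) (inR g) := by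
  apply Equiv.Perm.Disjoint.commute
  intro t
  rcases le_total t (1 / 2) with h | h
  · exact Or.inr (inR_fix hg h)
  · exact Or.inl (inL_fix hf h)

/-- The left copy. -/
noncomputable def homL : thF →* thF where
  toFun f := ⟨inL f.1, inL_mem f.2⟩
  map_one' := Subtype.ext (map_one inL)
  map_mul' f g := Subtype.ext (map_mul inL f.1 g.1)

/-- The right copy. -/
noncomputable def homR : thF →* thF where
  toFun f := ⟨inR f.1, inR_mem f.2⟩
  map_one' := Subtype.ext (map_one inR)
  map_mul' f g := Subtype.ext (map_mul inR f.1 g.1)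

/-- **The square of `F` in `F`**. -/
noncomputable def sqF : thF × thF →* thF :=
  homL.noncommCoprod homR fun f g => Subtype.ext (comm_LR f.2 g.2)

theorem sqF_val (p : thF × thF) : ((sqF p : thF) : Equiv.Perm ℝ) = inL p.1.1 * inR p.2.1 := rfl

theorem sqF_inj : Function.Injective sqF := by
  rintro ⟨f, g⟩ ⟨f', g'⟩ h
  have h1 : inL f.1 * inR g.1 = inL f'.1 * inR g'.1 := by
    rw [← sqF_val (f, g), ← sqF_val (f', g'), h]
  have hl : ∀ t : ℝ, t ≤ 1 / 2 → inL f.1 t = inL f'.1 t := by
    intro t ht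
    have h2 := congrArg (fun e : Equiv.Perm ℝ => e t) h1
    simp only [Equiv.Perm.mul_apply] at h2
    rwa [inR_fix g.2 ht, inR_fix g'.2 ht] at h2
  have hLL : inL f.1 = inL f'.1 := by
    refine Equiv.ext fun t => ?_
    rcases le_total t (1 / 2) with h | h
    · exact hl t h
    · rw [inL_fix f.2 h, inL_fix f'.2 h]
  have h3 : f = f' := Subtype.ext (inL_inj hLL)
  rw [hLL] at h1
  have h4 : g = g' := Subtype.ext (inR_inj (mul_left_cancel h1))
  rw [h3, h4]

instance thF_infinite : Infinite thF := by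
  by_contra hfin
  rw [not_infinite_iff_finite] at hfin
  have hinj : Function.Injective homL := fun f g h =>
    Subtype.ext (inL_inj (congrArg Subtype.val h))
  obtain ⟨f, hf⟩ := Finite.injective_iff_surjective.1 hinj ⟨thA, A_mem⟩
  have h1 : inL f.1 = thA := congrArg Subtype.val hf
  have h2 : inL f.1 (3 / 4) = thA (3 / 4) := by rw [h1]
  rw [inL_fix f.2 (by norm_num), A2 _ (by norm_num) le_rfl] at h2
  norm_num at h2

instance thF_fg : Group.FG thF := by
  classical
  exact (Group.fg_iff_subgroup_fg _).2 ⟨{thA, thB}, by simp [thF]⟩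

end Pool.Agent.Y36.FD
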