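import Pool.Agent.Y36.FD.Cube

set_option autoImplicit false

namespace Pool.Agent.Y36.FD

variable {Γ : Type} [Group Γ] {Ω : Type} {A : Ω → Type} {X : Type} [AddCommGroup X]

/-- Vanishing of the cohomology in degrees less than `n`. -/
def Ex (s : (w : Ω) → A w → Γ) (P : (Γ → X) → Prop) (W : List Ω) (n : ℕ) : Prop :=
  ∀ c : Co A (Γ → X) W, Lt W n c → del s W c = 0 → Ent P W c → ∃ b, Ent P W b ∧ del s W b = c

variable {s : (w : Ω) → A w → Γ} {P : (Γ → X) → Prop} {v : Ω} {W : List Ω}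

/-- Improving the degree of a primitive. -/
lemma primitive_lt (hP : Good P) {k : ℕ} {b c : Co A (Γ → X) W} (hb : Ent P W b)
    (h : del s W b = c) (hc : Lt W (k + 1) c) :
    ∃ b', Ent P W b' ∧ del s W b' = c ∧ Lt W k b' := by
  refine ⟨tc W k b, hb.tc hP.zero k, ?_, lt_tc k b⟩
  rw [del_tc, h]
  exact hc

variable [Two X]

/-- The key computation: correcting the components of degree one. -/
lemma build (hP : Good P) (hv : ∀ w ∈ W, Cm s v w) {n : ℕ} (hE : Ex s P W n)
    {c : Co A (Γ → X) (v :: W)} (hclosed : del s (v :: W) c = 0) (hent : Ent P (v :: W) c)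
    (hlt : ∀ a, Lt W n (c.o a)) {b0 : Co A (Γ → X) W} (hb0 : Ent P W b0)
    (hd : del s W b0 = c.z) (hb0lt : Lt W n b0) :
    ∃ b, Ent P (v :: W) b ∧ del s (v :: W) b = c := by
  have key : ∀ a, ∃ e, Ent P W e ∧ del s W e = c.o a + (mp (tr (s v a)) W b0 + b0) := by
    intro a
    refine hE _ ?_ ?_ ?_
    · exact (hlt a).add ((hb0lt.mp _).add hb0lt)
    · have h1 : (del s (v :: W) c).o a = 0 := by rw [hclosed]; rfl
      rw [del_o] at h1
      rw [map_add, map_add, del_tr s (fun w hw b => hv w hw a b), hd]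
      exact h1
    · exact Ent.add hP.add (hent.2 a) (Ent.add hP.add (Ent.mp (hP.tr _) hb0) hb0)
  choose e he1 he2 using key
  refine ⟨Co.mk b0 e, ⟨hb0, he1⟩, Co.ext hd fun a => ?_⟩
  rw [del_o, o_mk, z_mk, he2, add_add_self]

/-- Adding a direction preserves vanishing in the same range. -/
lemma Ex.cons (hP : Good P) (hv : ∀ w ∈ W, Cm s v w) {n : ℕ} (hE : Ex s P W n) :
    Ex s P (v :: W) n := by
  intro c hlt hclosed hent
  rcases n with _ | n
  · exact ⟨0, Ent.zero hP.zero _, by rw [map_zero, hlt.eq_zero]⟩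
  · have hz : del s W c.z = 0 := congrArg Co.z hclosed
    obtain ⟨b, hb1, hb2⟩ := hE c.z hlt.z hz hent.1
    obtain ⟨b0, hb0, hd, hb0lt⟩ := primitive_lt hP hb1 hb2 hlt.z
    exact build hP hv hE hclosed hent (fun a => (hlt.o a).mono (Nat.le_succ n)) hb0 hd
      (hb0lt.mono (Nat.le_succ n))

/-- The statement that the invariants in the top cohomology vanish. -/
def TT (s : (w : Ω) → A w → Γ) (P : (Γ → X) → Prop) (v : Ω) (W : List Ω) : Prop :=
  ∀ c : Co A (Γ → X) W, del s W c = 0 → Ent P W c →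
    (∀ a, ∃ h, Ent P W h ∧ del s W h = mp (tr (s v a)) W c + c) → ∃ b, Ent P W b ∧ del s W b = c

/-- Adding a direction under the assumption `TT`. -/
lemma Ex.cons_succ (hP : Good P) (hv : ∀ w ∈ W, Cm s v w) (hE : Ex s P W W.length)
    (hT : TT s P v W) : Ex s P (v :: W) (v :: W).length := by
  intro c hlt hclosed hent
  have hz : del s W c.z = 0 := congrArg Co.z hclosed
  obtain ⟨b, hb1, hb2⟩ := hT c.z hz hent.1 (fun a => ⟨c.o a, hent.2 a, by
    have h1 : (del s (v :: W) c).o a = 0 := by rw [hclosed]; rfl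
    rw [del_o] at h1
    exact eq_of_add_eq_zero h1⟩)
  obtain ⟨b0, hb0, hd, hb0lt⟩ := primitive_lt hP hb1 hb2 (lt_top _ (Nat.lt_succ_self _) _)
  exact build hP hv hE hclosed hent (fun a => hlt.o a) hb0 hd hb0lt

/-- The component of degree `0` in all directions of `V`. -/
def pj {F : Type} [AddCommGroup F] : ∀ (V W : List Ω), Co A F (V ++ W) →+ Co A F W
  | [], _ => AddMonoidHom.id _
  | _ :: V, W =>
    { toFun := fun c => pj V W (Co.z c)
      map_zero' := (pj V W).map_zero
      map_add' := fun c c' => (pj V W).map_add (Co.z c) (Co.z c') }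

omit [Two X] in
lemma pj_del (s : (w : Ω) → A w → Γ) (V W : List Ω) (c : Co A (Γ → X) (V ++ W)) :
    pj V W (del s (V ++ W) c) = del s W (pj V W c) := by
  induction V with
  | nil => rfl
  | cons v V ih => exact ih (Co.z c)

lemma pj_mp {F F' : Type} [AddCommGroup F] [AddCommGroup F'] (φ : F →+ F') (V W : List Ω)
    (c : Co A F (V ++ W)) : pj V W (mp φ (V ++ W) c) = mp φ W (pj V W c) := by
  induction V with
  | nil => rfl
  | cons v V ih => exact ih (Co.z c)

lemma Ent.pj {F : Type} [AddCommGroup F] {P : F → Prop} {V W : List Ω} {c : Co A F (V ++ W)}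
    (h : Ent P (V ++ W) c) : Ent P W (pj V W c) := by
  induction V with
  | nil => exact h
  | cons v V ih => exact ih h.1

lemma Ex.append (hP : Good P) (V : List Ω) (hW : (V ++ W).Pairwise (Cm s)) {n : ℕ}
    (hE : Ex s P W n) : Ex s P (V ++ W) n := by
  induction V with
  | nil => exact hE
  | cons v V ih =>
    rw [List.cons_append, List.pairwise_cons] at hW
    exact (ih hW.2).cons hP hW.1

/-- A closed cochain whose component of degree zero in the directions of `V` is exact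
is exact. -/
lemma exact_of_pj (hP : Good P) (V : List Ω) (hW : (V ++ W).Pairwise (Cm s)) {n : ℕ}
    (hE : Ex s P W n) (c : Co A (Γ → X) (V ++ W)) (hlt : Lt (V ++ W) (n + 1) c)
    (hclosed : del s (V ++ W) c = 0) (hent : Ent P (V ++ W) c)
    (hex : ∃ b, Ent P W b ∧ del s W b = pj V W c) :
    ∃ b, Ent P (V ++ W) b ∧ del s (V ++ W) b = c := by
  induction V with
  | nil => exact hex
  | cons v V ih =>
    have hW' := hW
    rw [List.cons_append, List.pairwise_cons] at hW'
    obtain ⟨b, hb1, hb2⟩ := ih hW'.2 (Co.z c) hlt.z (congrArg Co.z hclosed) hent.1 hex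
    obtain ⟨b0, hb0, hd, hb0lt⟩ := primitive_lt hP hb1 hb2 hlt.z
    exact build hP hW'.1 (hE.append hP V hW'.2) hclosed hent (fun a => hlt.o a) hb0 hd hb0lt

/-- Extending a class which is invariant under the directions in `V`. -/
lemma extend (hP : Good P) (V : List Ω) (hW : (V ++ W).Pairwise (Cm s)) {n : ℕ}
    (hE : Ex s P W n) (c : Co A (Γ → X) W) (hlt : Lt W (n + 1) c)
    (hclosed : del s W c = 0) (hent : Ent P W c)
    (hinv : ∀ v ∈ V, ∀ a, ∃ h, Ent P W h ∧ del s W h = mp (tr (s v a)) W c + c) :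
    ∃ c', Lt (V ++ W) (n + 1) c' ∧ del s (V ++ W) c' = 0 ∧ Ent P (V ++ W) c' ∧
      pj V W c' = c := by
  induction V with
  | nil => exact ⟨c, hlt, hclosed, hent, rfl⟩
  | cons v V ih =>
    have hW' := hW
    rw [List.cons_append, List.pairwise_cons] at hW'
    obtain ⟨c', h1, h2, h3, h4⟩ := ih hW'.2 (fun u hu => hinv u (List.mem_cons_of_mem _ hu))
    have key : ∀ a, ∃ e, Ent P (V ++ W) e ∧
        del s (V ++ W) e = mp (tr (s v a)) (V ++ W) c' + c' ∧ Lt (V ++ W) n e := by
      intro a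
      have hcm : ∀ w ∈ V ++ W, ∀ b, Commute (s v a) (s w b) := fun w hw b => hW'.1 w hw a b
      have hx : Lt (V ++ W) (n + 1) (mp (tr (s v a)) (V ++ W) c' + c') := (h1.mp _).add h1
      obtain ⟨e, he1, he2⟩ := exact_of_pj hP V hW'.2 hE (mp (tr (s v a)) (V ++ W) c' + c')
        hx (by rw [map_add, del_tr s hcm, h2, map_zero, add_zero])
        (Ent.add hP.add (Ent.mp (hP.tr _) h3) h3)
        (by
          rw [map_add, pj_mp, h4]
          exact hinv v (List.mem_cons_self ..) a)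
      exact primitive_lt hP he1 he2 hx |>.imp fun e he => ⟨he.1, he.2.1, he.2.2⟩
    choose e he1 he2 he3 using key
    refine ⟨Co.mk c' e, Lt.mk h1 he3, Co.ext h2 fun a => ?_, ⟨h3, he1⟩, h4⟩
    change del s (V ++ W) (e a) + (mp (tr (s v a)) (V ++ W) c' + c') = 0
    rw [he2, Two.add_self]

omit [Two X] in
/-- The elements fixing a class. -/
lemma fix_closure (hP : Good P) [Two X] (c : Co A (Γ → X) W) (T : Set Γ)
    (hT : ∀ g ∈ T, (∀ w ∈ W, ∀ b, Commute g (s w b)) ∧
      ∃ h, Ent P W h ∧ del s W h = mp (tr g) W c + c) :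
    ∀ g ∈ Subgroup.closure T, (∀ w ∈ W, ∀ b, Commute g (s w b)) ∧
      ∃ h, Ent P W h ∧ del s W h = mp (tr g) W c + c := by
  intro g hg
  induction hg using Subgroup.closure_induction with
  | mem g hg => exact hT g hg
  | one =>
    refine ⟨fun w _ b => Commute.one_left _, 0, Ent.zero hP.zero _, ?_⟩
    rw [tr_one, mp_id, Two.add_self, map_zero]
  | mul g g' _ _ h1 h2 =>
    obtain ⟨h1, e1, h3, h4⟩ := h1
    obtain ⟨h2, e2, h5, h6⟩ := h2
    refine ⟨fun w hw b => (h1 w hw b).mul_left (h2 w hw b), mp (tr g) W e2 + e1,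
      Ent.add hP.add (Ent.mp (hP.tr _) h5) h3, ?_⟩
    rw [map_add, del_tr s h1, h4, h6, map_add, mp_comp, tr_comp, add_assoc,
      ← add_assoc (mp (tr g) W c), Two.add_self, zero_add]
  | inv g _ h1 =>
    obtain ⟨h1, e1, h3, h4⟩ := h1
    have h2 : ∀ w ∈ W, ∀ b, Commute g⁻¹ (s w b) := fun w hw b => (h1 w hw b).inv_left
    refine ⟨h2, mp (tr g⁻¹) W e1, Ent.mp (hP.tr _) h3, ?_⟩
    rw [del_tr s h2, h4, map_add, mp_comp, tr_comp, inv_mul_cancel, tr_one, mp_id, add_comm]

end Pool.Agent.Y36.FD
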