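import Pool.Agent.Y36.FD.Met

/-!
# Binary systems of commuting finitely generated subgroups
-/

set_option autoImplicit false

namespace Pool.Agent.Y36.FD

open Pool.Agent.TH87.FDC (MetricFamily ProperLeftInvariant HasWeakFDC perp perp_append
  perp_append_left perp_replicate)

/-- A binary system of commuting subgroups: `H (w0)` and `H (w1)` are contained in `H w`, they
commute and intersect trivially. -/
structure BinSys {Γ : Type} [Group Γ] (H : List Bool → Subgroup Γ) : Prop where
  le : ∀ w b, H (w ++ [b]) ≤ H w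
  comm : ∀ w, ∀ x ∈ H (w ++ [false]), ∀ y ∈ H (w ++ [true]), Commute x y
  disj : ∀ w, ∀ x, x ∈ H (w ++ [false]) → x ∈ H (w ++ [true]) → x = 1

section

variable {Γ : Type} [Group Γ] {H : List Bool → Subgroup Γ}

theorem BinSys.shift (h : BinSys H) (b : Bool) : BinSys fun w => H (b :: w) where
  le w c := h.le (b :: w) c
  comm w := h.comm (b :: w)
  disj w := h.disj (b :: w)

theorem BinSys.append_le (h : BinSys H) (u w : List Bool) : H (u ++ w) ≤ H u := by
  induction w generalizing u with
  | nil => rw [List.append_nil]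
  | cons b w ih =>
    have h1 : u ++ b :: w = (u ++ [b]) ++ w := by simp
    rw [h1]
    exact (ih (u ++ [b])).trans (h.le u b)

theorem BinSys.cons_le (h : BinSys H) (b : Bool) (w : List Bool) : H (b :: w) ≤ H [b] :=
  h.append_le [b] w

theorem BinSys.comm_ne (h : BinSys H) {b c : Bool} (hbc : b ≠ c) {x y : Γ} (hx : x ∈ H [b])
    (hy : y ∈ H [c]) : Commute x y := by
  cases b <;> cases c
  · exact absurd rfl hbc
  · exact h.comm [] x hx y hy
  · exact (h.comm [] y hy x hx).symm
  · exact absurd rfl hbc

theorem BinSys.disj_ne (h : BinSys H) {b c : Bool} (hbc : b ≠ c) {x : Γ} (hx : x ∈ H [b])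
    (hy : x ∈ H [c]) : x = 1 := by
  cases b <;> cases c
  · exact absurd rfl hbc
  · exact h.disj [] x hx hy
  · exact h.disj [] x hy hx
  · exact absurd rfl hbc

theorem BinSys.comm_perp (h : BinSys H) {v w : List Bool} (hvw : perp v w) {x y : Γ}
    (hx : x ∈ H v) (hy : y ∈ H w) : Commute x y := by
  induction v generalizing w H with
  | nil => exact hvw.elim
  | cons b v ih =>
    rcases w with _ | ⟨c, w⟩
    · exact hvw.elim
    · rcases hvw with h1 | ⟨h1, h2⟩
      · exact h.comm_ne h1 (h.cons_le b v hx) (h.cons_le c w hy)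
      · subst h1
        exact ih (h.shift b) h2 hx hy

theorem BinSys.indep (h : BinSys H) (v : List Bool) :
    ∀ (W : Set (List Bool)), (∀ w ∈ W, perp v w) → ∀ g ∈ H v,
      g ∈ Subgroup.closure {x | ∃ w ∈ W, x ∈ H w} → g = 1 := by
  induction v generalizing H with
  | nil =>
    intro W hW g _ hg
    have h1 : Subgroup.closure {x | ∃ w ∈ W, x ∈ H w} ≤ ⊥ := by
      rw [Subgroup.closure_le]
      rintro y ⟨w, hw, _⟩
      exact (hW w hw).elim
    exact Subgroup.mem_bot.1 (h1 hg)
  | cons b v ih =>
    intro W hW g hgv hg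
    set N : Subgroup Γ := Subgroup.closure {x | ∃ w ∈ {w : List Bool | b :: w ∈ W}, x ∈ H (b :: w)}
      with hN
    have hNle : N ≤ H [b] := by
      rw [hN, Subgroup.closure_le]
      rintro y ⟨w, _, hy⟩
      exact h.cons_le b w hy
    have hbn : b ≠ !b := by cases b <;> simp
    have key : ∀ g ∈ Subgroup.closure {x | ∃ w ∈ W, x ∈ H w},
        ∃ x ∈ H [!b], ∃ y ∈ N, g = x * y := by
      intro g hg
      induction hg using Subgroup.closure_induction with
      | mem x hx =>
        obtain ⟨w, hw, hxw⟩ := hx
        rcases w with _ | ⟨c, w⟩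
        · exact (hW _ hw).elim
        · by_cases hc : c = b
          · subst hc
            exact ⟨1, one_mem _, x, Subgroup.subset_closure ⟨w, hw, hxw⟩, (one_mul x).symm⟩
          · have hc' : c = !b := by cases b <;> cases c <;> simp_all
            subst hc'
            exact ⟨x, h.cons_le _ w hxw, 1, one_mem _, (mul_one x).symm⟩
      | one => exact ⟨1, one_mem _, 1, one_mem _, (mul_one 1).symm⟩
      | mul g g' _ _ h1 h2 =>
        obtain ⟨x, hx, y, hy, rfl⟩ := h1
        obtain ⟨x', hx', y', hy', rfl⟩ := h2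
        refine ⟨x * x', mul_mem hx hx', y * y', mul_mem hy hy', ?_⟩
        have hc : y * x' = x' * y := (h.comm_ne hbn (hNle hy) hx').eq
        calc x * y * (x' * y') = x * (y * x') * y' := by group
          _ = x * (x' * y) * y' := by rw [hc]
          _ = x * x' * (y * y') := by group
      | inv g _ h1 =>
        obtain ⟨x, hx, y, hy, rfl⟩ := h1
        refine ⟨x⁻¹, inv_mem hx, y⁻¹, inv_mem hy, ?_⟩
        have hc : y⁻¹ * x⁻¹ = x⁻¹ * y⁻¹ :=
          (h.comm_ne hbn (hNle (inv_mem hy)) (inv_mem hx)).eq
        rw [mul_inv_rev, hc]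
    obtain ⟨x, hx, y, hy, hxy⟩ := key g hg
    have hx1 : x = 1 := by
      refine h.disj_ne hbn ?_ hx
      have h2 : x = g * y⁻¹ := by rw [hxy, mul_inv_cancel_right]
      rw [h2]
      exact mul_mem (h.cons_le b v hgv) (inv_mem (hNle hy))
    rw [hx1, one_mul] at hxy
    refine ih (h.shift b) {w | b :: w ∈ W} ?_ g hgv (by rw [hxy]; exact hy)
    intro w hw
    rcases hW _ hw with h1 | h1
    · exact absurd rfl h1
    · exact h1.2

/-- The tree of a binary system of infinite finitely generated subgroups. -/
theorem BinSys.tree (h : BinSys H) {S : List Bool → Finset Γ}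
    (hS : ∀ w, Subgroup.closure (S w : Set Γ) = H w) (hinf : ∀ w, (H w : Set Γ).Infinite) :
    Tree (fun (w : List Bool) (a : S w) => (a : Γ)) perp := by
  have hrange : ∀ v : List Bool, Subgroup.closure (Set.range fun a : S v => (a : Γ)) = H v := by
    intro v
    rw [← hS v]
    congr 1
    exact Subtype.range_coe_subtype
  have hmem : ∀ (v : List Bool) (a : S v), (a : Γ) ∈ H v := by
    intro v a
    rw [← hS v]
    exact Subgroup.subset_closure a.2
  refine ⟨?_, ?_, ?_, ?_⟩
  · intro v w hvw a b
    exact h.comm_perp hvw (hmem v a) (hmem w b)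
  · intro v W hW g hg hg'
    rw [hrange] at hg
    refine h.indep v {w | w ∈ W} hW g hg ?_
    have h1 : Subgroup.closure {x : Γ | ∃ w ∈ W, ∃ a : S w, x = (a : Γ)} ≤
        Subgroup.closure {x : Γ | ∃ w ∈ {w | w ∈ W}, x ∈ H w} := by
      apply Subgroup.closure_mono
      rintro y ⟨w, hw, a, rfl⟩
      exact ⟨w, hw, hmem w a⟩
    exact h1 hg'
  · intro v
    rw [hrange]
    exact hinf v
  · intro v m
    refine ⟨(List.range m).map (fun i => v ++ (List.replicate i true ++ [false])), by simp, ?_,
      ?_, ?_⟩
    · rw [List.pairwise_map]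
      exact List.pairwise_lt_range.imp fun {i j} h => perp_append_left v (perp_replicate h)
    · intro w hw a
      obtain ⟨i, _, rfl⟩ := List.mem_map.1 hw
      rw [hrange]
      exact h.append_le v _ (hmem _ a)
    · intro w hw w' h
      obtain ⟨i, _, rfl⟩ := List.mem_map.1 hw
      exact perp_append _ h

/-- **General theorem.** A group containing a binary system of infinite finitely generated commuting
subgroups does not have weak FDC. -/
theorem not_weakFDC_of_binSys {m : MetricSpace Γ} (hm : ProperLeftInvariant m) (h : BinSys H)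
    (hfg : ∀ w, (H w).FG) (hinf : ∀ w, (H w : Set Γ).Infinite) :
    ¬ HasWeakFDC (MetricFamily.single Γ m) := by
  choose S hS using hfg
  exact not_weakFDC_of_tree hm (h.tree hS hinf) []

end

end Pool.Agent.Y36.FD
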