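import Pool.Agent.Y36.FD.Bin

/-!
# Branch groups

The rooted tree in which every vertex of level `i` has `k i` children is represented by its boundary
`∀ i, Fin (k i)`; vertices of level `n` are the prefixes of length `n`.
-/

set_option autoImplicit false

namespace Pool.Agent.Y36.FD

open Pool.Agent.TH87.FDC (MetricFamily ProperLeftInvariant HasWeakFDC)

/-- The boundary of the rooted tree in which every vertex of level `i` has `k i` children. -/
abbrev Bd (k : ℕ → ℕ) : Type := ∀ i : ℕ, Fin (k i)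

/-- `x` and `y` have the same prefix of length `n`. -/
def Pre {k : ℕ → ℕ} (n : ℕ) (x y : Bd k) : Prop := ∀ i < n, x i = y i

/-- The rigid stabilizer in `G` of the vertex which is the prefix of length `n` of `x`: the elements
of `G` which fix every point of the boundary which is not below this vertex. -/
def rist {k : ℕ → ℕ} (G : Subgroup (Equiv.Perm (Bd k))) (n : ℕ) (x : Bd k) :
    Subgroup (Equiv.Perm (Bd k)) where
  carrier := {g | g ∈ G ∧ ∀ y, ¬ Pre n x y → g y = y}
  mul_mem' := by
    rintro g h ⟨hg, hg'⟩ ⟨hh, hh'⟩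
    refine ⟨mul_mem hg hh, fun y hy => ?_⟩
    rw [Equiv.Perm.mul_apply, hh' y hy, hg' y hy]
  one_mem' := ⟨one_mem _, fun _ _ => rfl⟩
  inv_mem' := by
    rintro g ⟨hg, hg'⟩
    refine ⟨inv_mem hg, fun y hy => ?_⟩
    rw [Equiv.Perm.inv_eq_iff_eq]
    exact (hg' y hy).symm

/-- The rigid stabilizer of the level `n`: the subgroup generated by the rigid stabilizers of the
vertices of level `n`. -/
def levelRist {k : ℕ → ℕ} (G : Subgroup (Equiv.Perm (Bd k))) (n : ℕ) :
    Subgroup (Equiv.Perm (Bd k)) :=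
  Subgroup.closure {g | ∃ x, g ∈ rist G n x}

/-- `G` is a branch group: it acts by automorphisms of the rooted tree, transitively on every level,
and the rigid stabilizers of the levels have finite index in `G`. -/
structure IsBranch {k : ℕ → ℕ} (G : Subgroup (Equiv.Perm (Bd k))) : Prop where
  two_le : ∀ i, 2 ≤ k i
  aut : ∀ g ∈ G, ∀ (n : ℕ) (x y : Bd k), Pre n x y → Pre n (g x) (g y)
  trans : ∀ (n : ℕ) (x y : Bd k), ∃ g ∈ G, Pre n (g x) y
  branch : ∀ n : ℕ, (levelRist G n).relIndex G ≠ 0

section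

variable {k : ℕ → ℕ} {G : Subgroup (Equiv.Perm (Bd k))}

theorem Pre.symm {n : ℕ} {x y : Bd k} (h : Pre n x y) : Pre n y x := fun i hi => (h i hi).symm

theorem Pre.trans' {n : ℕ} {x y z : Bd k} (h : Pre n x y) (h' : Pre n y z) : Pre n x z :=
  fun i hi => (h i hi).trans (h' i hi)

theorem Pre.mono {n m : ℕ} (hnm : n ≤ m) {x y : Bd k} (h : Pre m x y) : Pre n x y :=
  fun i hi => h i (lt_of_lt_of_le hi hnm)

theorem rist_le (n : ℕ) (x : Bd k) : rist G n x ≤ G := fun _ hg => hg.1

theorem levelRist_le (n : ℕ) : levelRist G n ≤ G := by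
  rw [levelRist, Subgroup.closure_le]
  rintro g ⟨x, hx⟩
  exact hx.1

theorem rist_congr {n : ℕ} {x y : Bd k} (h : Pre n x y) : rist G n x = rist G n y := by
  ext g
  exact ⟨fun hg => ⟨hg.1, fun z hz => hg.2 z fun hz' => hz (h.symm.trans' hz')⟩,
    fun hg => ⟨hg.1, fun z hz => hg.2 z fun hz' => hz (h.trans' hz')⟩⟩

theorem rist_mono {n m : ℕ} (hnm : n ≤ m) (x : Bd k) : rist G m x ≤ rist G n x :=
  fun _ hg => ⟨hg.1, fun z hz => hg.2 z fun hz' => hz (hz'.mono hnm)⟩

/-- Conjugation permutes the rigid stabilizers. -/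
theorem rist_conj (hG : IsBranch G) {n : ℕ} {x : Bd k} {g h : Equiv.Perm (Bd k)} (hg : g ∈ G)
    (hh : h ∈ rist G n x) : g * h * g⁻¹ ∈ rist G n (g x) := by
  refine ⟨mul_mem (mul_mem hg hh.1) (inv_mem hg), fun y hy => ?_⟩
  rw [Equiv.Perm.mul_apply, Equiv.Perm.mul_apply]
  have h0 : g (g⁻¹ y) = y := g.apply_symm_apply y
  have h1 : ¬ Pre n x (g⁻¹ y) := by
    intro h1
    apply hy
    have h2 := hG.aut g hg n _ _ h1
    rwa [h0] at h2
  rw [hh.2 _ h1, h0]

theorem rist_commute {n m : ℕ} {x y : Bd k} (hxy : ∀ z, Pre n x z → ¬ Pre m y z)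
    {g h : Equiv.Perm (Bd k)} (hg : g ∈ rist G n x) (hh : h ∈ rist G m y) : Commute g h := by
  apply Equiv.Perm.Disjoint.commute
  intro z
  by_cases hz : Pre n x z
  · exact Or.inr (hh.2 z (hxy z hz))
  · exact Or.inl (hg.2 z hz)

theorem rist_disj {n m : ℕ} {x y : Bd k} (hxy : ∀ z, Pre n x z → ¬ Pre m y z)
    {g : Equiv.Perm (Bd k)} (hg : g ∈ rist G n x) (hh : g ∈ rist G m y) : g = 1 := by
  refine Equiv.ext fun z => ?_
  by_cases hz : Pre n x z
  · exact hh.2 z (hxy z hz)
  · exact hg.2 z hz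

/-- Branch groups are infinite. -/
theorem IsBranch.infinite (hG : IsBranch G) : Infinite G := by
  by_contra hfin
  rw [not_infinite_iff_finite] at hfin
  set N := Nat.card G with hN
  have h0 : ∀ i, 0 < k i := fun i => lt_of_lt_of_le two_pos (hG.two_le i)
  let x0 : Bd k := fun i => ⟨0, h0 i⟩
  -- the points with exactly one nonzero coordinate, at `j`
  let e : ℕ → Bd k := fun j i => if i = j then ⟨1, lt_of_lt_of_le one_lt_two (hG.two_le i)⟩ else
    ⟨0, h0 i⟩
  have hex : ∀ j : Fin (N + 1), ∃ g : G, Pre (N + 1) ((g : Equiv.Perm (Bd k)) x0) (e j) := by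
    intro j
    obtain ⟨g, hg, h1⟩ := hG.trans (N + 1) x0 (e j)
    exact ⟨⟨g, hg⟩, h1⟩
  choose f hf using hex
  have hinj : Function.Injective f := by
    intro i j hij
    have h1 := hf i
    rw [hij] at h1
    have h2 := (h1.symm.trans' (hf j)) i i.2
    by_contra hne
    have hne' : (i : ℕ) ≠ j := fun h => hne (Fin.ext h)
    simp only [e, if_true, if_neg hne'] at h2
    have h3 := congrArg Fin.val h2
    simp at h3
  have h1 := Nat.card_le_card_of_injective f hinj
  rw [Nat.card_fin, ← hN] at h1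
  omega

/-- Rigid stabilizers are nontrivial. -/
theorem rist_ne_bot (hG : IsBranch G) (n : ℕ) (x : Bd k) : rist G n x ≠ ⊥ := by
  intro h
  have hall : ∀ y, rist G n y = ⊥ := by
    intro y
    obtain ⟨g, hg, h1⟩ := hG.trans n y x
    rw [eq_bot_iff]
    intro z hz
    have h2 := rist_conj hG hg hz
    rw [rist_congr h1, h, Subgroup.mem_bot] at h2
    rw [Subgroup.mem_bot]
    have h3 : z = g⁻¹ * (g * z * g⁻¹) * g := by group
    rw [h3, h2]
    group
  have hlev : levelRist G n = ⊥ := by
    rw [eq_bot_iff, levelRist, Subgroup.closure_le]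
    rintro g ⟨y, hy⟩
    rw [hall y] at hy
    exact hy
  have h1 := hG.branch n
  rw [hlev, Subgroup.relIndex_bot_left] at h1
  have := hG.infinite
  exact h1 Nat.card_eq_zero_of_infinite

/-- The rigid stabilizer of a vertex contains the product of those of two children. -/
theorem card_rist (hG : IsBranch G) (n : ℕ) (x : Bd k) (hfin : (rist G n x : Set (Equiv.Perm (Bd k))).Finite) :
    ∃ y, (rist G (n + 1) y : Set (Equiv.Perm (Bd k))).Finite ∧
      Nat.card (rist G (n + 1) y) < Nat.card (rist G n x) := by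
  classical
  have hfinx : Finite (rist G n x) := hfin
  have h2 : 2 ≤ k n := hG.two_le n
  obtain ⟨c, hc⟩ : ∃ c : Fin (k n), c ≠ x n := by
    have : Nontrivial (Fin (k n)) := Fin.nontrivial_iff_two_le.2 h2
    exact exists_ne (x n)
  set x' : Bd k := Function.update x n c with hx'
  have hpre : Pre n x x' := fun i hi => by rw [hx', Function.update_of_ne (by omega)]
  have hdisj : ∀ z, Pre (n + 1) x z → ¬ Pre (n + 1) x' z := by
    intro z h1 h3
    have h4 := h1 n (Nat.lt_succ_self n)
    have h5 := h3 n (Nat.lt_succ_self n)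
    rw [hx', Function.update_self] at h5
    exact hc (h5.trans h4.symm)
  have hle : rist G (n + 1) x ≤ rist G n x := rist_mono (Nat.le_succ n) x
  have hle' : rist G (n + 1) x' ≤ rist G n x := by
    rw [rist_congr hpre]
    exact rist_mono (Nat.le_succ n) x'
  refine ⟨x, hfin.subset hle, ?_⟩
  obtain ⟨g, hg, hg1⟩ : ∃ g ∈ rist G (n + 1) x', g ≠ 1 := by
    have h3 := rist_ne_bot hG (n + 1) x'
    rw [Ne, Subgroup.eq_bot_iff_forall] at h3
    push Not at h3
    exact h3
  refine lt_of_le_of_ne (Nat.card_mono hfin hle) fun heq => ?_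
  have h3 : rist G (n + 1) x = rist G n x := Subgroup.eq_of_le_of_card_ge hle heq.ge
  have h4 : g ∈ rist G (n + 1) x := by
    rw [h3]
    exact hle' hg
  exact hg1 (rist_disj hdisj h4 hg)

/-- Rigid stabilizers are infinite. -/
theorem rist_infinite (hG : IsBranch G) (n : ℕ) (x : Bd k) : (rist G n x : Set (Equiv.Perm (Bd k))).Infinite := by
  have key : ∀ (N n : ℕ) (x : Bd k), (rist G n x : Set (Equiv.Perm (Bd k))).Finite →
      Nat.card (rist G n x) ≤ N → False := by
    intro N
    induction N with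
    | zero =>
      intro n x hfin hN
      have : Finite (rist G n x) := hfin
      have := Nat.card_pos (α := rist G n x)
      omega
    | succ N ih =>
      intro n x hfin hN
      obtain ⟨y, hy, hlt⟩ := card_rist hG n x hfin
      exact ih (n + 1) y hy (by omega)
  intro hfin
  exact key _ n x hfin le_rfl

/-- The part of an element of the level stabilizer at a vertex. -/
theorem decomp (n : ℕ) (x : Bd k) (S : Set (Equiv.Perm (Bd k)))
    (hS : Subgroup.closure S = levelRist G n) :
    ∃ r : Equiv.Perm (Bd k) → Equiv.Perm (Bd k),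
      Subgroup.closure (r '' S) = rist G n x := by
  classical
  set N : Subgroup (Equiv.Perm (Bd k)) :=
    Subgroup.closure {g | ∃ y, ¬ Pre n x y ∧ g ∈ rist G n y} with hN
  have hNfix : ∀ g ∈ N, ∀ z, Pre n x z → g z = z := by
    intro g hg
    induction hg using Subgroup.closure_induction with
    | mem g hg =>
      intro z hz
      obtain ⟨y, hy, hg⟩ := hg
      exact hg.2 z fun h => hy (hz.trans' h.symm)
    | one => intro z _; rfl
    | mul g h _ _ h1 h2 =>
      intro z hz
      rw [Equiv.Perm.mul_apply, h2 z hz, h1 z hz]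
    | inv g _ h1 =>
      intro z hz
      rw [Equiv.Perm.inv_eq_iff_eq]
      exact (h1 z hz).symm
  have hcomm : ∀ g ∈ rist G n x, ∀ h ∈ N, Commute g h := by
    intro g hg h hh
    apply Equiv.Perm.Disjoint.commute
    intro z
    by_cases hz : Pre n x z
    · exact Or.inr (hNfix h hh z hz)
    · exact Or.inl (hg.2 z hz)
  have hdisj : ∀ g ∈ rist G n x, g ∈ N → g = 1 := by
    intro g hg hh
    refine Equiv.ext fun z => ?_
    by_cases hz : Pre n x z
    · exact hNfix g hh z hz
    · exact hg.2 z hz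
  have hdec : ∀ g ∈ levelRist G n, ∃ a ∈ rist G n x, ∃ b ∈ N, g = a * b := by
    intro g hg
    induction hg using Subgroup.closure_induction with
    | mem g hg =>
      obtain ⟨y, hy⟩ := hg
      by_cases hxy : Pre n x y
      · exact ⟨g, by rw [rist_congr hxy]; exact hy, 1, one_mem _, (mul_one g).symm⟩
      · exact ⟨1, one_mem _, g, Subgroup.subset_closure ⟨y, hxy, hy⟩, (one_mul g).symm⟩
    | one => exact ⟨1, one_mem _, 1, one_mem _, (mul_one 1).symm⟩
    | mul g g' _ _ h1 h2 =>
      obtain ⟨a, ha, b, hb, rfl⟩ := h1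
      obtain ⟨a', ha', b', hb', rfl⟩ := h2
      refine ⟨a * a', mul_mem ha ha', b * b', mul_mem hb hb', ?_⟩
      have hc := (hcomm a' ha' b hb).eq
      calc a * b * (a' * b') = a * (b * a') * b' := by group
        _ = a * (a' * b) * b' := by rw [hc]
        _ = a * a' * (b * b') := by group
    | inv g _ h1 =>
      obtain ⟨a, ha, b, hb, rfl⟩ := h1
      refine ⟨a⁻¹, inv_mem ha, b⁻¹, inv_mem hb, ?_⟩
      rw [mul_inv_rev, (hcomm a⁻¹ (inv_mem ha) b⁻¹ (inv_mem hb)).eq]
  have hSl : ∀ s ∈ S, s ∈ levelRist G n := fun s hs => by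
    rw [← hS]; exact Subgroup.subset_closure hs
  have hr : ∀ s, ∃ a, s ∈ S → a ∈ rist G n x ∧ ∃ b ∈ N, s = a * b := by
    intro s
    by_cases hs : s ∈ S
    · obtain ⟨a, ha, b, hb, h⟩ := hdec s (hSl s hs)
      exact ⟨a, fun _ => ⟨ha, b, hb, h⟩⟩
    · exact ⟨1, fun h => absurd h hs⟩
  choose r hr using hr
  refine ⟨r, le_antisymm ?_ ?_⟩
  · rw [Subgroup.closure_le]
    rintro _ ⟨s, hs, rfl⟩
    exact (hr s hs).1
  · have hle : Subgroup.closure (r '' S) ≤ rist G n x := by
      rw [Subgroup.closure_le]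
      rintro _ ⟨s, hs, rfl⟩
      exact (hr s hs).1
    have key : ∀ g ∈ Subgroup.closure S, ∃ a ∈ Subgroup.closure (r '' S), ∃ b ∈ N,
        g = a * b := by
      intro g hg
      induction hg using Subgroup.closure_induction with
      | mem g hg =>
        obtain ⟨b, hb, h⟩ := (hr g hg).2
        exact ⟨r g, Subgroup.subset_closure ⟨g, hg, rfl⟩, b, hb, h⟩
      | one => exact ⟨1, one_mem _, 1, one_mem _, (mul_one 1).symm⟩
      | mul g g' _ _ h1 h2 =>
        obtain ⟨a, ha, b, hb, rfl⟩ := h1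
        obtain ⟨a', ha', b', hb', rfl⟩ := h2
        refine ⟨a * a', mul_mem ha ha', b * b', mul_mem hb hb', ?_⟩
        have hc := (hcomm a' (hle ha') b hb).eq
        calc a * b * (a' * b') = a * (b * a') * b' := by group
          _ = a * (a' * b) * b' := by rw [hc]
          _ = a * a' * (b * b') := by group
      | inv g _ h1 =>
        obtain ⟨a, ha, b, hb, rfl⟩ := h1
        refine ⟨a⁻¹, inv_mem ha, b⁻¹, inv_mem hb, ?_⟩
        rw [mul_inv_rev, (hcomm a⁻¹ (inv_mem (hle ha)) b⁻¹ (inv_mem hb)).eq]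
    intro g hg
    have hg' : g ∈ Subgroup.closure S := by
      rw [hS]
      exact Subgroup.subset_closure ⟨x, hg⟩
    obtain ⟨a, ha, b, hb, h⟩ := key g hg'
    have hb1 : b = 1 := by
      refine hdisj b ?_ hb
      have h2 : b = a⁻¹ * g := by rw [h, inv_mul_cancel_left]
      rw [h2]
      exact mul_mem (inv_mem (hle ha)) hg
    rw [h, hb1, mul_one]
    exact ha

/-- Rigid stabilizers of finitely generated branch groups are finitely generated. -/
theorem rist_fg (hG : IsBranch G) (hfg : Group.FG G) (n : ℕ) (x : Bd k) : (rist G n x).FG := by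
  classical
  have hidx : (levelRist G n).relIndex G ≠ 0 := hG.branch n
  have hfi : ((levelRist G n).subgroupOf G).FiniteIndex := ⟨hidx⟩
  have h1 : Group.FG ((levelRist G n).subgroupOf G) := Subgroup.fg_of_index_ne_zero _
  have h2 : (levelRist G n).FG := by
    obtain ⟨S', hS'⟩ := (Group.fg_iff_subgroup_fg _).1 h1
    refine ⟨S'.image G.subtype, ?_⟩
    rw [Finset.coe_image, ← MonoidHom.map_closure, hS',
      Subgroup.map_subgroupOf_eq_of_le (levelRist_le n)]
  obtain ⟨S, hS⟩ := h2
  obtain ⟨r, hr⟩ := decomp (G := G) n x (S : Set (Equiv.Perm (Bd k))) hS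
  refine ⟨S.image r, ?_⟩
  rw [Finset.coe_image]
  exact hr

end

end Pool.Agent.Y36.FD
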