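import Pool.Agent.Y36.FD.Branch

/-!
# Finitely generated branch groups do not have weak FDC
-/

set_option autoImplicit false

namespace Pool.Agent.Y36.FD

open Pool.Agent.TH87.FDC (MetricFamily ProperLeftInvariant HasWeakFDC)

section

variable {k : ℕ → ℕ} {G : Subgroup (Equiv.Perm (Bd k))}

open Classical in
/-- A point of the boundary below the vertex given by a binary word. -/
noncomputable def pt (h2 : ∀ i, 2 ≤ k i) (w : List Bool) : Bd k := fun i =>
  if w[i]? = some true then ⟨1, lt_of_lt_of_le one_lt_two (h2 i)⟩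
  else ⟨0, lt_of_lt_of_le two_pos (h2 i)⟩

theorem pt_pre (h2 : ∀ i, 2 ≤ k i) (w : List Bool) (b : Bool) :
    Pre w.length (pt h2 (w ++ [b])) (pt h2 w) := by
  intro i hi
  unfold pt
  rw [List.getElem?_append_left hi]

theorem pt_disj (h2 : ∀ i, 2 ≤ k i) (w : List Bool) (z : Bd k)
    (h : Pre (w ++ [false]).length (pt h2 (w ++ [false])) z) :
    ¬ Pre (w ++ [true]).length (pt h2 (w ++ [true])) z := by
  intro h'
  have h3 := h w.length (by simp)
  have h4 := h' w.length (by simp)
  rw [← h4] at h3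
  have h5 := congrArg Fin.val h3
  simp [pt] at h5

theorem rist_pt_le (h2 : ∀ i, 2 ≤ k i) (w : List Bool) (b : Bool) :
    rist G (w ++ [b]).length (pt h2 (w ++ [b])) ≤ rist G w.length (pt h2 w) := by
  rw [← rist_congr (pt_pre h2 w b)]
  exact rist_mono (by simp) _

variable {Γ : Type} [Group Γ]

/-- The image in `Γ` of the rigid stabilizer of a vertex. -/
noncomputable def HB (h2 : ∀ i, 2 ≤ k i) (ι : G →* Γ) (w : List Bool) : Subgroup Γ :=
  (ι.comp (Subgroup.inclusion (rist_le (G := G) w.length (pt h2 w)))).range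

theorem mem_HB (h2 : ∀ i, 2 ≤ k i) (ι : G →* Γ) (w : List Bool) (z : Γ) :
    z ∈ HB h2 ι w ↔ ∃ (g : Equiv.Perm (Bd k)) (hg : g ∈ rist G w.length (pt h2 w)),
      ι ⟨g, rist_le _ _ hg⟩ = z := by
  constructor
  · rintro ⟨⟨g, hg⟩, rfl⟩
    exact ⟨g, hg, rfl⟩
  · rintro ⟨g, hg, rfl⟩
    exact ⟨⟨g, hg⟩, rfl⟩

theorem binSys_HB (h2 : ∀ i, 2 ≤ k i) (ι : G →* Γ) (hι : Function.Injective ι) :
    BinSys (HB h2 ι) where
  le w b := by
    intro z hz
    rw [mem_HB] at hz ⊢
    obtain ⟨g, hg, rfl⟩ := hz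
    exact ⟨g, rist_pt_le h2 w b hg, rfl⟩
  comm w x hx y hy := by
    rw [mem_HB] at hx hy
    obtain ⟨g, hg, rfl⟩ := hx
    obtain ⟨h, hh, rfl⟩ := hy
    have h1 : Commute (⟨g, rist_le _ _ hg⟩ : G) ⟨h, rist_le _ _ hh⟩ :=
      Subtype.ext (rist_commute (pt_disj h2 w) hg hh)
    exact h1.map ι
  disj w x hx hy := by
    rw [mem_HB] at hx hy
    obtain ⟨g, hg, rfl⟩ := hx
    obtain ⟨h, hh, h1⟩ := hy
    have h3 : h = g := congrArg Subtype.val (hι h1)
    subst h3
    have h4 : h = 1 := rist_disj (pt_disj h2 w) hg hh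
    subst h4
    exact map_one ι

/-- **Theorem.** A group which contains a finitely generated branch group does not have weak FDC. -/
theorem branch_not_weakFDC (hG : IsBranch G) (hfg : Group.FG G) {m : MetricSpace Γ}
    (hm : ProperLeftInvariant m) (ι : G →* Γ) (hι : Function.Injective ι) :
    ¬ HasWeakFDC (MetricFamily.single Γ m) := by
  refine not_weakFDC_of_binSys hm (binSys_HB hG.two_le ι hι) (fun w => ?_) (fun w => ?_)
  · have h1 : Group.FG (rist G w.length (pt hG.two_le w)) :=
      (Group.fg_iff_subgroup_fg _).2 (rist_fg hG hfg _ _)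
    exact (Group.fg_iff_subgroup_fg _).1 (Group.fg_range _)
  · have h1 : Infinite (rist G w.length (pt hG.two_le w)) :=
      (rist_infinite hG w.length (pt hG.two_le w)).to_subtype
    have h2 : Function.Injective
        (ι.comp (Subgroup.inclusion (rist_le (G := G) w.length (pt hG.two_le w)))) :=
      hι.comp (Subgroup.inclusion_injective _)
    exact Set.infinite_range_of_injective h2

end

end Pool.Agent.Y36.FD
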