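import Mathlib

/-!
# Cubical cochains with values in functions on a group

`Co A F W` is the group of cochains on a cube with one direction for each entry of the list `W`,
in each direction there is one component for degree `0` and one component for each `a : A` in
degree `1`.
-/

set_option autoImplicit false

namespace Pool.Agent.Y36.FD

/-- Abelian groups in which `x + x = 0`. -/
class Two (X : Type*) [AddCommGroup X] : Prop where
  add_self : ∀ x : X, x + x = 0

instance : Two (ZMod 2) := ⟨by decide⟩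

instance {ι : Type*} {X : ι → Type*} [∀ i, AddCommGroup (X i)] [∀ i, Two (X i)] :
    Two (∀ i, X i) := ⟨fun x => funext fun i => Two.add_self (x i)⟩

instance {X Y : Type*} [AddCommGroup X] [AddCommGroup Y] [Two X] [Two Y] : Two (X × Y) :=
  ⟨fun x => Prod.ext (Two.add_self x.1) (Two.add_self x.2)⟩

instance {ι X : Type*} [AddCommGroup X] [Two X] : Two (ι →₀ X) :=
  ⟨fun x => Finsupp.ext fun i => Two.add_self (x i)⟩

section two

variable {X : Type*} [AddCommGroup X] [Two X]

lemma add_add_self (x y : X) : x + y + y = x := by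
  rw [add_assoc, Two.add_self, add_zero]

lemma eq_of_add_eq_zero {x y : X} (h : x + y = 0) : x = y := by
  rw [← add_add_self x y, h, zero_add]

lemma add_eq_zero_of_eq {x y : X} (h : x = y) : x + y = 0 := by
  rw [h, Two.add_self]

lemma eq_add_of {x y z : X} (h : x + y = z) : x = z + y := by
  rw [← h, add_add_self]

end two

variable {Γ : Type} [Group Γ] {Ω : Type} {A : Ω → Type}

/-- Cochains on a cube. -/
def Co (A : Ω → Type) (F : Type) : List Ω → Type
  | [] => F
  | v :: W => Co A F W × (A v → Co A F W)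

section inst

variable {F : Type} [AddCommGroup F]

instance instCo : ∀ W : List Ω, AddCommGroup (Co A F W)
  | [] => inferInstanceAs (AddCommGroup F)
  | v :: W =>
    letI : AddCommGroup (Co A F W) := instCo W
    inferInstanceAs (AddCommGroup (Co A F W × (A v → Co A F W)))

instance instTwoCo [Two F] : ∀ W : List Ω, Two (Co A F W)
  | [] => inferInstanceAs (Two F)
  | v :: W =>
    haveI : Two (Co A F W) := instTwoCo W
    inferInstanceAs (Two (Co A F W × (A v → Co A F W)))

end inst

/-- The degree `0` component in the first direction. -/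
def Co.z {F : Type} {v : Ω} {W : List Ω} (c : Co A F (v :: W)) : Co A F W := Prod.fst c

/-- The degree `1` component in the first direction. -/
def Co.o {F : Type} {v : Ω} {W : List Ω} (c : Co A F (v :: W)) (a : A v) : Co A F W := Prod.snd c a

/-- Build a cochain from its components. -/
def Co.mk {F : Type} {v : Ω} {W : List Ω} (c0 : Co A F W) (c1 : A v → Co A F W) : Co A F (v :: W) :=
  (c0, c1)

section basic

variable {F : Type} {v : Ω} {W : List Ω}

@[simp] lemma z_mk (c0 : Co A F W) (c1 : A v → Co A F W) : (Co.mk c0 c1 : Co A F (v :: W)).z = c0 :=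
  rfl
@[simp] lemma o_mk (c0 : Co A F W) (c1 : A v → Co A F W) (a : A v) :
    (Co.mk c0 c1 : Co A F (v :: W)).o a = c1 a := rfl

lemma Co.ext {c c' : Co A F (v :: W)} (h0 : c.z = c'.z) (h1 : ∀ a, c.o a = c'.o a) : c = c' :=
  Prod.ext h0 (funext h1)

variable [AddCommGroup F]

@[simp] lemma z_add (c c' : Co A F (v :: W)) : (c + c').z = c.z + c'.z := rfl
@[simp] lemma o_add (c c' : Co A F (v :: W)) (a : A v) : (c + c').o a = c.o a + c'.o a := rfl
@[simp] lemma z_zero : (0 : Co A F (v :: W)).z = 0 := rfl
@[simp] lemma o_zero (a : A v) : (0 : Co A F (v :: W)).o a = 0 := rfl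

end basic

/-- Apply a homomorphism to all entries. -/
def mp {F F' : Type} [AddCommGroup F] [AddCommGroup F'] (φ : F →+ F') :
    ∀ W : List Ω, Co A F W →+ Co A F' W
  | [] => φ
  | _ :: W =>
    { toFun := fun c => Co.mk (mp φ W c.z) (fun a => mp φ W (c.o a))
      map_zero' := Co.ext (by simp) (by simp)
      map_add' := fun c c' => Co.ext (by simp) (by simp) }

section mp

variable {F F' F'' : Type} [AddCommGroup F] [AddCommGroup F'] [AddCommGroup F''] {v : Ω}
  {W : List Ω}

@[simp] lemma mp_z (φ : F →+ F') (c : Co A F (v :: W)) : (mp φ (v :: W) c).z = mp φ W c.z := rfl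
@[simp] lemma mp_o (φ : F →+ F') (c : Co A F (v :: W)) (a : A v) :
    (mp φ (v :: W) c).o a = mp φ W (c.o a) := rfl
@[simp] lemma mp_nil (φ : F →+ F') (c : F) : mp (A := A) φ ([] : List Ω) c = φ c := rfl

lemma mp_comp (φ : F →+ F') (ψ : F' →+ F'') (W : List Ω) (c : Co A F W) :
    mp ψ W (mp φ W c) = mp (ψ.comp φ) W c := by
  induction W with
  | nil => rfl
  | cons v W ih => exact Co.ext (by simp [ih]) (by simp [ih])

lemma mp_id (W : List Ω) (c : Co A F W) : mp (AddMonoidHom.id F) W c = c := by
  induction W with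
  | nil => rfl
  | cons v W ih => exact Co.ext (by simp [ih]) (by simp [ih])

lemma mp_add (φ ψ : F →+ F') (W : List Ω) (c : Co A F W) :
    mp (φ + ψ) W c = mp φ W c + mp ψ W c := by
  induction W with
  | nil => rfl
  | cons v W ih => exact Co.ext (by simp [ih]) (by simp [ih])

lemma mp_zero (W : List Ω) (c : Co A F W) : mp (0 : F →+ F') W c = 0 := by
  induction W with
  | nil => rfl
  | cons v W ih => exact Co.ext (by simp [ih]) (by simp [ih])

lemma mp_congr {φ ψ : F →+ F'} (h : φ = ψ) (W : List Ω) (c : Co A F W) :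
    mp φ W c = mp ψ W c := by rw [h]

lemma mp_inj {φ : F →+ F'} (h : Function.Injective φ) (W : List Ω) :
    Function.Injective (mp (A := A) φ W) := by
  induction W with
  | nil => exact h
  | cons v W ih =>
    intro c c' hc
    exact Co.ext (ih (congrArg Co.z hc)) (fun a => ih (congrArg (fun c => Co.o c a) hc))

end mp

/-- All entries satisfy `P`. -/
def Ent {F : Type} (P : F → Prop) : ∀ W : List Ω, Co A F W → Prop
  | [], c => P c
  | _ :: W, c => Ent P W c.z ∧ ∀ a, Ent P W (c.o a)

/-- Truncation: the part of degree less than `k`. -/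
def tc {F : Type} [AddCommGroup F] : ∀ (W : List Ω) (_ : ℕ), Co A F W →+ Co A F W
  | [], k => if k = 0 then 0 else AddMonoidHom.id _
  | _ :: W, k =>
    { toFun := fun c => Co.mk (tc W k c.z) (fun a => tc W (k - 1) (c.o a))
      map_zero' := Co.ext (by simp) (by simp)
      map_add' := fun c c' => Co.ext (by simp) (by simp) }

section tc

variable {F : Type} [AddCommGroup F] {v : Ω} {W : List Ω}

@[simp] lemma tc_z (k : ℕ) (c : Co A F (v :: W)) : (tc (v :: W) k c).z = tc W k c.z := rfl
@[simp] lemma tc_o (k : ℕ) (c : Co A F (v :: W)) (a : A v) :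
    (tc (v :: W) k c).o a = tc W (k - 1) (c.o a) := rfl

lemma tc_zero (W : List Ω) (c : Co A F W) : tc W 0 c = 0 := by
  induction W with
  | nil => rfl
  | cons v W ih => exact Co.ext (by simp [ih]) (by simp [ih])

lemma tc_nil_succ (k : ℕ) (c : Co A F ([] : List Ω)) : tc [] (k + 1) c = c := by
  simp [tc]

lemma tc_top (W : List Ω) (k : ℕ) (hk : W.length < k) (c : Co A F W) : tc W k c = c := by
  induction W generalizing k with
  | nil =>
    obtain ⟨k, rfl⟩ : ∃ l, k = l + 1 := ⟨k - 1, by simp at hk; omega⟩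
    exact tc_nil_succ k c
  | cons v W ih =>
    simp only [List.length_cons] at hk
    refine Co.ext ?_ ?_
    · rw [tc_z]; exact ih k (by omega) _
    · intro a
      rw [tc_o]; exact ih (k - 1) (by omega) _

lemma tc_tc (W : List Ω) (k l : ℕ) (c : Co A F W) : tc W k (tc W l c) = tc W (min k l) c := by
  induction W generalizing k l with
  | nil =>
    rcases k with _ | k
    · simp [tc_zero]
    · rcases l with _ | l
      · simp [tc_zero]
      · have : min (k + 1) (l + 1) = min k l + 1 := by omega
        rw [this, tc_nil_succ, tc_nil_succ, tc_nil_succ]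
  | cons v W ih =>
    refine Co.ext ?_ ?_
    · rw [tc_z, tc_z, tc_z, ih]
    · intro a
      rw [tc_o, tc_o, tc_o, ih]
      congr 2
      omega

/-- Being of degree less than `k`. -/
def Lt (W : List Ω) (k : ℕ) (c : Co A F W) : Prop := tc W k c = c

lemma Lt.mono {k l : ℕ} (h : k ≤ l) {c : Co A F W} (hc : Lt W k c) : Lt W l c := by
  unfold Lt at *
  rw [← hc, tc_tc, min_eq_right h]

lemma Lt.zero (k : ℕ) : Lt W k (0 : Co A F W) := map_zero _

lemma Lt.add {k : ℕ} {c c' : Co A F W} (h : Lt W k c) (h' : Lt W k c') : Lt W k (c + c') := by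
  unfold Lt at *
  rw [map_add, h, h']

lemma lt_tc (k : ℕ) (c : Co A F W) : Lt W k (tc W k c) := by
  unfold Lt
  rw [tc_tc, min_self]

lemma Lt.eq_zero {c : Co A F W} (h : Lt W 0 c) : c = 0 := by
  unfold Lt at h
  rw [← h, tc_zero]

lemma lt_top (k : ℕ) (hk : W.length < k) (c : Co A F W) : Lt W k c := tc_top W k hk c

lemma Lt.z {k : ℕ} {c : Co A F (v :: W)} (h : Lt (v :: W) k c) : Lt W k c.z :=
  congrArg Co.z h

lemma Lt.o {k : ℕ} {c : Co A F (v :: W)} (h : Lt (v :: W) k c) (a : A v) : Lt W (k - 1) (c.o a) :=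
  congrArg (fun c => Co.o c a) h

lemma Lt.mk {k : ℕ} {c : Co A F (v :: W)} (h : Lt W k c.z) (h' : ∀ a, Lt W (k - 1) (c.o a)) :
    Lt (v :: W) k c := Co.ext h h'

lemma tc_mp {F' : Type} [AddCommGroup F'] (φ : F →+ F') (W : List Ω) (k : ℕ) (c : Co A F W) :
    tc W k (mp φ W c) = mp φ W (tc W k c) := by
  induction W generalizing k with
  | nil =>
    rcases k with _ | k
    · rw [tc_zero, tc_zero, map_zero]
    · rw [tc_nil_succ, tc_nil_succ]
  | cons v W ih => exact Co.ext (by simp [ih]) (by simp [ih])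

lemma Lt.mp {F' : Type} [AddCommGroup F'] (φ : F →+ F') {k : ℕ} {c : Co A F W} (h : Lt W k c) :
    Lt W k (mp φ W c) := by
  unfold Lt at *
  rw [tc_mp, h]

end tc

/-- Right translation. -/
def tr {X : Type} [AddCommGroup X] (g : Γ) : (Γ → X) →+ (Γ → X) where
  toFun f := fun x => f (x * g)
  map_zero' := rfl
  map_add' _ _ := rfl

section tr

variable {X : Type} [AddCommGroup X]

@[simp] lemma tr_apply (g : Γ) (f : Γ → X) (x : Γ) : tr g f x = f (x * g) := rfl

lemma tr_comp (g h : Γ) : (tr g).comp (tr h) = (tr (g * h) : (Γ → X) →+ (Γ → X)) := by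
  ext f x
  simp [mul_assoc]

lemma tr_one : (tr (1 : Γ) : (Γ → X) →+ (Γ → X)) = AddMonoidHom.id _ := by
  ext f x
  simp

end tr

/-- Properties of functions preserved by sums and translations. -/
structure Good {X : Type} [AddCommGroup X] (P : (Γ → X) → Prop) : Prop where
  zero : P 0
  add : ∀ f g, P f → P g → P (f + g)
  tr : ∀ (g : Γ) f, P f → P (tr g f)

/-- The differential. -/
def del {X : Type} [AddCommGroup X] (s : (w : Ω) → A w → Γ) :
    ∀ W : List Ω, Co A (Γ → X) W →+ Co A (Γ → X) W
  | [] => 0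
  | v :: W =>
    { toFun := fun c => Co.mk (del s W c.z)
        (fun a => del s W (c.o a) + (mp (tr (s v a)) W c.z + c.z))
      map_zero' := Co.ext (by simp) (by simp)
      map_add' := fun c c' => Co.ext (by simp) (by intro a; simp only [o_mk, z_add, o_add, map_add]; abel) }

section del

variable {X : Type} [AddCommGroup X] (s : (w : Ω) → A w → Γ) {v : Ω} {W : List Ω}

@[simp] lemma del_nil (c : Co A (Γ → X) ([] : List Ω)) : del s [] c = 0 := rfl
@[simp] lemma del_z (c : Co A (Γ → X) (v :: W)) : (del s (v :: W) c).z = del s W c.z := rfl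
@[simp] lemma del_o (c : Co A (Γ → X) (v :: W)) (a : A v) :
    (del s (v :: W) c).o a = del s W (c.o a) + (mp (tr (s v a)) W c.z + c.z) := rfl

lemma del_mp {Y : Type} [AddCommGroup Y] (φ : (Γ → X) →+ (Γ → Y)) (W : List Ω)
    (h : ∀ w ∈ W, ∀ a, φ.comp (tr (s w a)) = (tr (s w a)).comp φ) (c : Co A (Γ → X) W) :
    del s W (mp φ W c) = mp φ W (del s W c) := by
  induction W with
  | nil => exact (map_zero φ).symm
  | cons v W ih =>
    have ih' := ih (fun w hw => h w (List.mem_cons_of_mem _ hw))
    refine Co.ext ?_ ?_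
    · simp [ih']
    · intro a
      have h1 := h v (List.mem_cons_self ..) a
      simp only [del_o, mp_o, mp_z, map_add, ih', mp_comp, h1]

lemma del_tc (W : List Ω) (k : ℕ) (c : Co A (Γ → X) W) :
    del s W (tc W k c) = tc W (k + 1) (del s W c) := by
  induction W generalizing k with
  | nil => simp
  | cons v W ih =>
    refine Co.ext ?_ ?_
    · simp [ih]
    · intro a
      simp only [del_o, tc_o, tc_z, map_add, Nat.add_sub_cancel, tc_mp]
      congr 1
      rcases k with _ | k
      · rw [tc_zero, tc_zero, map_zero]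
      · rw [Nat.add_sub_cancel, ih]

/-- `v` commutes with the entries of `W`. -/
def Cm (s : (w : Ω) → A w → Γ) (v w : Ω) : Prop := ∀ a b, Commute (s v a) (s w b)

lemma tr_comm {g h : Γ} (hc : Commute g h) :
    (tr g).comp (tr h) = ((tr h).comp (tr g) : (Γ → X) →+ (Γ → X)) := by
  rw [tr_comp, tr_comp, hc.eq]

lemma del_tr {g : Γ} (h : ∀ w ∈ W, ∀ a, Commute g (s w a)) (c : Co A (Γ → X) W) :
    del s W (mp (tr g) W c) = mp (tr g) W (del s W c) :=
  del_mp s _ W (fun w hw a => tr_comm (h w hw a)) c

lemma del_del [Two X] (hW : W.Pairwise (Cm s)) (c : Co A (Γ → X) W) :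
    del s W (del s W c) = 0 := by
  induction W with
  | nil => simp
  | cons v W ih =>
    rw [List.pairwise_cons] at hW
    refine Co.ext ?_ ?_
    · simp [ih hW.2]
    · intro a
      have h1 : ∀ c : Co A (Γ → X) W, del s W (mp (tr (s v a)) W c) = mp (tr (s v a)) W (del s W c) :=
        fun c => del_tr s (fun w hw b => hW.1 w hw a b) c
      simp only [del_o, del_z, map_add, ih hW.2, h1, zero_add, o_zero]
      exact Two.add_self _

end del

section ent

variable {X : Type} [AddCommGroup X] {P : (Γ → X) → Prop} {v : Ω} {W : List Ω}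

lemma Ent.mono {F : Type} {P Q : F → Prop} (h : ∀ f, P f → Q f) {W : List Ω} {c : Co A F W}
    (hc : Ent P W c) : Ent Q W c := by
  induction W with
  | nil => exact h _ hc
  | cons v W ih => exact ⟨ih hc.1, fun a => ih (hc.2 a)⟩

lemma Ent.zero {F : Type} [AddCommGroup F] {P : F → Prop} (h : P 0) (W : List Ω) :
    Ent P W (0 : Co A F W) := by
  induction W with
  | nil => exact h
  | cons v W ih => exact ⟨ih, fun a => ih⟩

lemma Ent.add {F : Type} [AddCommGroup F] {P Q R : F → Prop}
    (h : ∀ f g, P f → Q g → R (f + g)) {W : List Ω} {c c' : Co A F W}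
    (hc : Ent P W c) (hc' : Ent Q W c') : Ent R W (c + c') := by
  induction W with
  | nil => exact h _ _ hc hc'
  | cons v W ih => exact ⟨ih hc.1 hc'.1, fun a => ih (hc.2 a) (hc'.2 a)⟩

lemma Ent.mp {F F' : Type} [AddCommGroup F] [AddCommGroup F'] {P : F → Prop} {Q : F' → Prop}
    {φ : F →+ F'} (h : ∀ f, P f → Q (φ f)) {W : List Ω} {c : Co A F W}
    (hc : Ent P W c) : Ent Q W (mp φ W c) := by
  induction W with
  | nil => exact h _ hc
  | cons v W ih => exact ⟨ih hc.1, fun a => ih (hc.2 a)⟩

lemma Ent.tc {F : Type} [AddCommGroup F] {P : F → Prop} (h : P 0) {W : List Ω} {c : Co A F W}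
    (hc : Ent P W c) (k : ℕ) : Ent P W (tc W k c) := by
  induction W generalizing k with
  | nil =>
    rcases k with _ | k
    · rw [tc_zero]; exact h
    · rw [tc_nil_succ]; exact hc
  | cons v W ih => exact ⟨ih hc.1 _, fun a => ih (hc.2 a) _⟩

lemma Ent.del (hP : Good P) (s : (w : Ω) → A w → Γ) {c : Co A (Γ → X) W} (hc : Ent P W c) :
    Ent P W (del s W c) := by
  induction W with
  | nil => exact hP.zero
  | cons v W ih =>
    refine ⟨ih hc.1, fun a => ?_⟩
    rw [del_o]
    exact Ent.add hP.add (ih (hc.2 a)) (Ent.add hP.add (Ent.mp (hP.tr _) hc.1) hc.1)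

end ent

end Pool.Agent.Y36.FD
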