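import Pool.Agent.Y36.FD.Alg

set_option autoImplicit false

namespace Pool.Agent.Y36.FD

variable {Γ : Type} [Group Γ] {Ω : Type} {A : Ω → Type} {J : Type}

/-- `f` is supported in the `B`-neighbourhoods of the sets `S j`. -/
def NS (S : J → Set Γ) (B : Set Γ) (f : Γ → J → ZMod 2) : Prop :=
  ∀ x j, f x j ≠ 0 → ∃ y ∈ S j, ∃ b ∈ B, x = y * b

/-- `f` is supported in uniformly bounded neighbourhoods of the sets `S j`. -/
def MS (S : J → Set Γ) (f : Γ → J → ZMod 2) : Prop := ∃ B : Set Γ, B.Finite ∧ NS S B f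

lemma NS.mono {S : J → Set Γ} {B B' : Set Γ} (h : B ⊆ B') {f : Γ → J → ZMod 2} (hf : NS S B f) :
    NS S B' f := by
  intro x j hx
  obtain ⟨y, hy, b, hb, h1⟩ := hf x j hx
  exact ⟨y, hy, b, h hb, h1⟩

lemma good_MS (S : J → Set Γ) : Good (MS S) where
  zero := ⟨∅, Set.finite_empty, fun x j h => absurd rfl h⟩
  add := by
    rintro f g ⟨B, hB, hf⟩ ⟨C, hC, hg⟩
    refine ⟨B ∪ C, hB.union hC, fun x j h => ?_⟩
    by_cases h1 : f x j = 0
    · have h2 : g x j ≠ 0 := by
        intro h2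
        apply h
        rw [Pi.add_apply, Pi.add_apply, h1, h2, add_zero]
      obtain ⟨y, hy, b, hb, h3⟩ := hg x j h2
      exact ⟨y, hy, b, Or.inr hb, h3⟩
    · obtain ⟨y, hy, b, hb, h3⟩ := hf x j h1
      exact ⟨y, hy, b, Or.inl hb, h3⟩
  tr := by
    rintro g f ⟨B, hB, hf⟩
    refine ⟨(fun b => b * g⁻¹) '' B, hB.image _, fun x j h => ?_⟩
    obtain ⟨y, hy, b, hb, h3⟩ := hf (x * g) j h
    refine ⟨y, hy, b * g⁻¹, ⟨b, hb, rfl⟩, ?_⟩
    rw [← mul_assoc, ← h3, mul_inv_cancel_right]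

/-- A cochain has finitely many entries. -/
lemma Ent.unif [∀ w, Finite (A w)] {F : Type} {P : F → Prop} {Q : Set Γ → F → Prop}
    (hPQ : ∀ f, P f → ∃ B : Set Γ, B.Finite ∧ Q B f)
    (hmono : ∀ B B' f, B ⊆ B' → Q B f → Q B' f) {W : List Ω} {c : Co A F W}
    (h : Ent P W c) : ∃ B : Set Γ, B.Finite ∧ Ent (Q B) W c := by
  induction W with
  | nil => exact hPQ _ h
  | cons v W ih =>
    obtain ⟨B, hB, h1⟩ := ih h.1
    choose C hC h2 using fun a => ih (h.2 a)
    refine ⟨B ∪ ⋃ a, C a, hB.union (Set.finite_iUnion hC), ?_, fun a => ?_⟩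
    · exact h1.mono (fun f hf => hmono _ _ _ Set.subset_union_left hf)
    · exact (h2 a).mono (fun f hf => hmono _ _ _
        (Set.subset_union_of_subset_right (Set.subset_iUnion _ _) _) hf)

/-- The family `S` has vanishing cohomology. -/
def Van (s : (w : Ω) → A w → Γ) (perp : Ω → Ω → Prop) (S : J → Set Γ) : Prop :=
  ∀ W : List Ω, W.Pairwise perp → Ex s (MS S) W W.length

/-- The data of a tree of commuting subgroups. -/
structure Tree (s : (w : Ω) → A w → Γ) (perp : Ω → Ω → Prop) : Prop where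
  comm : ∀ v w, perp v w → ∀ a b, Commute (s v a) (s w b)
  indep : ∀ (v : Ω) (W : List Ω), (∀ w ∈ W, perp v w) →
    ∀ g ∈ Subgroup.closure (Set.range (s v)),
      g ∈ Subgroup.closure {x | ∃ w ∈ W, ∃ a, x = s w a} → g = 1
  inf : ∀ v, (Subgroup.closure (Set.range (s v)) : Set Γ).Infinite
  refine : ∀ (v : Ω) (m : ℕ), ∃ V : List Ω, V.length = m ∧ V.Pairwise perp ∧
    (∀ u ∈ V, ∀ a, s u a ∈ Subgroup.closure (Set.range (s v))) ∧
    ∀ u ∈ V, ∀ w, perp v w → perp u w

/-- Multiplication with the indicator function of a family of sets. -/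
noncomputable def ind {X : Type} [AddCommGroup X] (U : J → Set Γ) : (Γ → J → X) →+ (Γ → J → X) := by
  classical
  exact
  { toFun := fun f x j => if x ∈ U j then f x j else 0
    map_zero' := by funext x j; simp
    map_add' := by
      intro f g
      funext x j
      simp only [Pi.add_apply]
      split_ifs <;> simp }

lemma ind_apply_mem {X : Type} [AddCommGroup X] {U : J → Set Γ} {f : Γ → J → X} {x : Γ} {j : J}
    (h : x ∈ U j) : ind U f x j = f x j := by
  simp [ind, h]

lemma ind_apply_notMem {X : Type} [AddCommGroup X] {U : J → Set Γ} {f : Γ → J → X} {x : Γ} {j : J}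
    (h : x ∉ U j) : ind U f x j = 0 := by
  simp [ind, h]

lemma ind_tr {X : Type} [AddCommGroup X] {U : J → Set Γ} {g : Γ}
    (h : ∀ j x, x * g ∈ U j ↔ x ∈ U j) :
    (ind U).comp (tr g) = ((tr g).comp (ind U) : (Γ → J → X) →+ (Γ → J → X)) := by
  ext f x j
  change ind U (tr g f) x j = ind U f (x * g) j
  by_cases hx : x ∈ U j
  · rw [ind_apply_mem hx, ind_apply_mem ((h j x).2 hx)]
    rfl
  · rw [ind_apply_notMem hx, ind_apply_notMem (fun hx' => hx ((h j x).1 hx'))]

lemma Tree.pairwise {s : (w : Ω) → A w → Γ} {perp : Ω → Ω → Prop} (ht : Tree s perp) {W : List Ω}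
    (h : W.Pairwise perp) : W.Pairwise (Cm s) :=
  h.imp (fun {v w} hvw => ht.comm v w hvw)

/-- Vanishing in the top degree is all that has to be shown. -/
lemma van_of_TT {s : (w : Ω) → A w → Γ} {perp : Ω → Ω → Prop} (ht : Tree s perp) {S : J → Set Γ}
    (h : ∀ v W, (v :: W).Pairwise perp → Ex s (MS S) W W.length → TT s (MS S) v W) :
    Van s perp S := by
  intro W
  induction W with
  | nil =>
    intro _ c hlt _ _
    exact ⟨0, Ent.zero (good_MS S).zero _, by rw [map_zero, hlt.eq_zero]⟩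
  | cons v W ih =>
    intro hW
    have hW' := List.pairwise_cons.1 hW
    have h1 := ih hW'.2
    exact h1.cons_succ (good_MS S) (fun w hw => ht.comm v w (hW'.1 w hw)) (h v W hW h1)

/-- Uniformly bounded families have vanishing cohomology. -/
theorem van_bounded [∀ w, Finite (A w)] {s : (w : Ω) → A w → Γ} {perp : Ω → Ω → Prop} (ht : Tree s perp)
    {S : J → Set Γ} (D : Set Γ) (hD : D.Finite) (hS : ∀ j, ∀ x ∈ S j, ∀ y ∈ S j, x⁻¹ * y ∈ D) :
    Van s perp S := by
  refine van_of_TT ht fun v W hW _ c hclosed hent hinv => ?_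
  have hW' := List.pairwise_cons.1 hW
  -- translates by all elements of the group generated by `s v`
  have hfix := fix_closure (good_MS S) c (Set.range (s v)) (by
    rintro g ⟨a, rfl⟩
    exact ⟨fun w hw b => ht.comm v w (hW'.1 w hw) a b, hinv a⟩)
  -- a uniform bound for the support of `c`
  obtain ⟨B, hB, hcB⟩ := hent.unif (Q := NS S) (fun f hf => hf)
    (fun _ _ _ h1 h2 => h2.mono h1)
  set H := Subgroup.closure {x | ∃ w ∈ W, ∃ a, x = s w a} with hH
  set E : J → Set Γ := fun j => {x | ∃ y ∈ S j, ∃ b ∈ B, x = y * b} with hE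
  -- choose the element
  obtain ⟨g, hg, hgD⟩ : ∃ g ∈ Subgroup.closure (Set.range (s v)),
      ∀ h ∈ H, ∀ b ∈ B, ∀ d ∈ D, ∀ b' ∈ B, h * g ≠ b⁻¹ * d * b' := by
    by_contra hcon
    push Not at hcon
    -- pigeonhole
    set T : Set Γ := Set.image2 (fun x y => x * y) (Set.image2 (fun b d => b⁻¹ * d) B D) B with hT
    have hTfin : T.Finite := (hB.image2 _ hD).image2 _ hB
    have h1 : ∀ g ∈ (Subgroup.closure (Set.range (s v)) : Set Γ), ∃ t ∈ T, t * g⁻¹ ∈ H := by
      intro g hg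
      obtain ⟨h, hh, b, hb, d, hd, b', hb', h2⟩ := hcon g hg
      refine ⟨h * g, ?_, by rwa [mul_inv_cancel_right]⟩
      rw [h2]
      exact ⟨b⁻¹ * d, ⟨b, hb, d, hd, rfl⟩, b', hb', rfl⟩
    choose! τ hτ1 hτ2 using h1
    obtain ⟨g1, hg1, g2, hg2, hne, heq⟩ :=
      (ht.inf v).exists_ne_map_eq_of_mapsTo (f := τ) (fun g hg => hτ1 g hg) hTfin
    apply hne
    have h3 : g1 * g2⁻¹ ∈ H := by
      have := H.mul_mem (H.inv_mem (hτ2 g1 hg1)) (hτ2 g2 hg2)
      rw [heq] at this
      simpa [mul_assoc] using this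
    have h4 := ht.indep v W (fun w hw => hW'.1 w hw) (g1 * g2⁻¹)
      (mul_mem hg1 (inv_mem hg2)) h3
    rwa [mul_inv_eq_one] at h4
  obtain ⟨_, e, he1, he2⟩ := hfix g hg
  set U : J → Set Γ := fun j => {x | ∃ y ∈ E j, ∃ h ∈ H, x = y * h} with hU
  have hUinv : ∀ h ∈ H, ∀ j x, x * h ∈ U j ↔ x ∈ U j := by
    intro h hh j x
    constructor
    · rintro ⟨y, hy, h', hh', h1⟩
      exact ⟨y, hy, h' * h⁻¹, H.mul_mem hh' (H.inv_mem hh), by
        rw [← mul_assoc, ← h1, mul_inv_cancel_right]⟩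
    · rintro ⟨y, hy, h', hh', h1⟩
      exact ⟨y, hy, h' * h, H.mul_mem hh' hh, by rw [h1, mul_assoc]⟩
  have hcomm : ∀ w ∈ W, ∀ a, (ind U).comp (tr (s w a)) =
      ((tr (s w a)).comp (ind U) : (Γ → J → ZMod 2) →+ (Γ → J → ZMod 2)) :=
    fun w hw a => ind_tr (fun j x => hUinv _ (Subgroup.subset_closure ⟨w, hw, a, rfl⟩) j x)
  refine ⟨mp (ind U) W e, Ent.mp (Q := MS S) ?_ he1, ?_⟩
  · rintro f ⟨C, hC, hf⟩
    refine ⟨C, hC, fun x j hx => hf x j fun h0 => hx ?_⟩
    by_cases hxU : x ∈ U j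
    · rw [ind_apply_mem hxU, h0]
    · rw [ind_apply_notMem hxU]
  · rw [del_mp s _ W hcomm, he2, map_add]
    have key : ∀ (W : List Ω) (c : Co A (Γ → J → ZMod 2) W), Ent (NS S B) W c →
        mp (ind U) W (mp (tr g) W c) = 0 ∧ mp (ind U) W c = c := by
      intro W
      induction W with
      | nil =>
        intro c hc
        constructor
        · funext x j
          change ind U (tr g c) x j = 0
          by_cases hx : x ∈ U j
          · rw [ind_apply_mem hx]
            by_contra hne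
            obtain ⟨y, hy, b, hb, h1⟩ := hc (x * g) j hne
            obtain ⟨y', ⟨z, hz, b', hb', rfl⟩, h, hh, h2⟩ := hx
            refine hgD h hh b' hb' (z⁻¹ * y) (hS j z hz y hy) b hb ?_
            have h3 : z * b' * (h * g) = y * b := by rw [← h1, h2]; group
            calc h * g = (z * b')⁻¹ * (z * b' * (h * g)) := by group
              _ = b'⁻¹ * (z⁻¹ * y) * b := by rw [h3]; group
          · rw [ind_apply_notMem hx]
        · funext x j
          change ind U c x j = c x j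
          by_cases hx : x ∈ U j
          · rw [ind_apply_mem hx]
          · rw [ind_apply_notMem hx]
            by_contra hne
            apply hx
            exact ⟨x, hc x j (Ne.symm hne), 1, H.one_mem, (mul_one x).symm⟩
      | cons v W ih =>
        intro c hc
        exact ⟨Co.ext (ih _ hc.1).1 fun a => (ih _ (hc.2 a)).1,
          Co.ext (ih _ hc.1).2 fun a => (ih _ (hc.2 a)).2⟩
    rw [(key W c hcB).1, (key W c hcB).2, zero_add]

end Pool.Agent.Y36.FD
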