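import Pool.Agent.Y36.FD.Step
import Pool.Agent.TH87.FDC.Metric

/-!
# Trees of commuting subgroups and weak FDC

The results of `Pool/Agent/TH87/FDC/Metric.lean` for trees of subgroups whose numbers of generators
are not bounded.
-/

set_option autoImplicit false
set_option linter.unusedSectionVars false

namespace Pool.Agent.Y36.FD

open Pool.Agent.TH87.FDC (MetricFamily Decomposition ProperLeftInvariant ContainsBounded
  StableWeakDecomp HasWeakFDC HasFDC)

/-- The whole group is never a family with vanishing cohomology. -/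
theorem not_van_univ {Γ : Type} [Group Γ] {Ω : Type} {A : Ω → Type} {s : (w : Ω) → A w → Γ} {perp : Ω → Ω → Prop}
    (v : Ω) : ¬ Van s perp (fun _ : Unit => (Set.univ : Set Γ)) := by
  intro h
  have h1 := h [v] (List.pairwise_singleton _ _)
  set f : Γ → Unit → ZMod 2 := fun _ _ => 1 with hf
  obtain ⟨b, _, hb⟩ := h1 (emb [v] f) (lt_emb _ _) (del_emb s _ _ (fun g => rfl))
    (ent_emb (good_MS _).zero _ _ ⟨{1}, Set.finite_singleton _, fun x j _ =>
      ⟨x, trivial, 1, rfl, (mul_one x).symm⟩⟩)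
  have h2 : f = 0 := by
    have := congrArg Co.z hb
    exact this.symm
  have h3 := congrFun (congrFun h2 1) ()
  simp [hf] at h3

/-- The families all of whose members have vanishing cohomology, in the sense that every family
of subsets of `Γ` which embed isometrically into the members has. -/
def Good' {Γ : Type} [Group Γ] (m : MetricSpace Γ) {Ω : Type} {A : Ω → Type} (s : (w : Ω) → A w → Γ)
    (perp : Ω → Ω → Prop) (𝒳 : MetricFamily) : Prop :=
  ∀ (J : Type) (S : J → Set Γ), (∀ j, (S j).Nonempty → ∃ (i : 𝒳.ι) (φ : S j → 𝒳.space i),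
    ∀ x y : S j, dist (φ x) (φ y) = m.dist x y) → Van s perp S

section

variable {Γ : Type} [Group Γ] {m : MetricSpace Γ} (hm : ProperLeftInvariant m) {Ω : Type} {A : Ω → Type}
  [∀ w, Finite (A w)] {s : (w : Ω) → A w → Γ} {perp : Ω → Ω → Prop} (ht : Tree s perp)

include hm ht

lemma good'_bounded : ContainsBounded (Good' m s perp) := by
  rintro 𝒳 ⟨D, hD⟩ J S hS
  refine van_bounded ht {x : Γ | m.dist 1 x ≤ D} (hm.finite D) ?_
  intro j x hx y hy
  obtain ⟨i, φ, hφ⟩ := hS j ⟨x, hx⟩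
  have h1 := hD i (φ ⟨x, hx⟩) (φ ⟨y, hy⟩)
  rw [hφ] at h1
  have h2 := hm.inv x⁻¹ x y
  rw [inv_mul_cancel] at h2
  change m.dist 1 (x⁻¹ * y) ≤ D
  rw [h2]
  exact h1

/-- The general form of stability. -/
lemma good'_stable_general {𝒳 : MetricFamily} {d : ℕ}
    (h : ∀ r : ℝ, 0 < r → ∃ (D : Decomposition r d 𝒳) (𝒴 : MetricFamily), Good' m s perp 𝒴 ∧
      ∀ i k j, ∃ (l : 𝒴.ι) (ψ : D.piece i k j → 𝒴.space l), Isometry ψ) :
    Good' m s perp 𝒳 := by
  classical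
  intro J S hS
  refine van_step ht d fun F hF => ?_
  -- the scale
  obtain ⟨r, hr0, hr⟩ : ∃ r : ℝ, 0 < r ∧ ∀ g ∈ F, m.dist 1 g ≤ r := by
    obtain ⟨r, hr⟩ := (hF.image (fun g => m.dist 1 g)).bddAbove
    exact ⟨max r 1, lt_max_of_lt_right one_pos,
      fun g hg => (hr ⟨g, hg, rfl⟩).trans (le_max_left _ _)⟩
  obtain ⟨D, 𝒴, h𝒴, hD⟩ := h r hr0
  -- the labels
  choose idx φ hφ using hS
  have hlab : ∀ j x, ∃ q : Option (Σ (i : 𝒳.ι) (k : Fin (d + 1)), D.κ i k),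
      ∀ hx : x ∈ S j, ∃ (k : Fin (d + 1)) (p : D.κ (idx j ⟨x, hx⟩) k),
        q = some ⟨idx j ⟨x, hx⟩, k, p⟩ ∧ φ j ⟨x, hx⟩ ⟨x, hx⟩ ∈ D.piece (idx j ⟨x, hx⟩) k p := by
    intro j x
    by_cases hx : x ∈ S j
    · obtain ⟨k, p, hp⟩ := D.cover (idx j ⟨x, hx⟩) (φ j ⟨x, hx⟩ ⟨x, hx⟩)
      exact ⟨some ⟨idx j ⟨x, hx⟩, k, p⟩, fun _ => ⟨k, p, rfl, hp⟩⟩
    · exact ⟨none, fun hx' => absurd hx' hx⟩
  choose lab hlab using hlab
  refine ⟨Option (Σ (i : 𝒳.ι) (k : Fin (d + 1)), D.κ i k), lab,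
    fun q => match q with | none => 0 | some p => p.2.1, ?_, ?_⟩
  · intro j x hx y hy hxy hc
    obtain ⟨k, p, h1, h2⟩ := hlab j x hx
    obtain ⟨k', p', h3, h4⟩ := hlab j y hy
    rw [h1, h3] at hc
    simp only at hc
    subst hc
    rw [h1, h3]
    by_contra hne
    have hpp : p ≠ p' := fun h => hne (by rw [h])
    have h5 := D.disjoint (idx j ⟨x, hx⟩) k p p' hpp _ h2 _ h4
    have h8 := hφ j ⟨x, hx⟩ ⟨x, hx⟩ ⟨y, hy⟩
    have h9 : r < m.dist x y := by
      rw [← h8]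
      exact h5
    have h6 := hr _ hxy
    have h7 := hm.inv x⁻¹ x y
    rw [inv_mul_cancel] at h7
    rw [h7] at h6
    exact absurd h6 (not_le.2 h9)
  · intro I S' hS'
    refine h𝒴 I S' fun i hi => ?_
    obtain ⟨j, l, hl⟩ := hS' i
    obtain ⟨x0, hx0⟩ := hi
    have hx0S : x0 ∈ S j := (hl hx0).1
    have hx0l : lab j x0 = l := (hl hx0).2
    have hne : (S j).Nonempty := ⟨x0, hx0S⟩
    obtain ⟨k, p, h1, h2⟩ : ∃ (k : Fin (d + 1)) (p : D.κ (idx j hne) k),
        lab j x0 = some ⟨idx j hne, k, p⟩ ∧ φ j hne ⟨x0, hx0S⟩ ∈ D.piece (idx j hne) k p :=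
      hlab j x0 hx0S
    have hl' : l = some ⟨idx j hne, k, p⟩ := hx0l.symm.trans h1
    have key : ∀ x : S' i, ∃ hx : (x : Γ) ∈ S j,
        φ j hne ⟨x, hx⟩ ∈ D.piece (idx j hne) k p := by
      intro x
      have hxS : (x : Γ) ∈ S j := (hl x.2).1
      have hxl : lab j x = l := (hl x.2).2
      obtain ⟨k', p', h3, h4⟩ : ∃ (k : Fin (d + 1)) (p : D.κ (idx j hne) k),
        lab j x = some ⟨idx j hne, k, p⟩ ∧ φ j hne ⟨x, hxS⟩ ∈ D.piece (idx j hne) k p :=
        hlab j x hxS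
      refine ⟨hxS, ?_⟩
      have h5 : some (⟨idx j hne, k', p'⟩ : Σ (i : 𝒳.ι) (k : Fin (d + 1)), D.κ i k) =
          some ⟨idx j hne, k, p⟩ := h3.symm.trans (hxl.trans hl')
      have h6 := Option.some.inj h5
      have h7 := eq_of_heq (Sigma.mk.inj_iff.1 h6).2
      obtain ⟨h8, h9⟩ := Sigma.mk.inj_iff.1 h7
      subst h8
      have h10 := eq_of_heq h9
      subst h10
      exact h4
    choose hx1 hx2 using key
    obtain ⟨q, ψ, hψ⟩ := hD (idx j hne) k p
    refine ⟨q, fun x => ψ ⟨φ j hne ⟨x, hx1 x⟩, hx2 x⟩, fun x y => ?_⟩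
    rw [hψ.dist_eq]
    exact hφ j hne ⟨x, hx1 x⟩ ⟨y, hx1 y⟩

lemma good'_stable : StableWeakDecomp (Good' m s perp) := by
  rintro 𝒳 ⟨d, h⟩
  refine good'_stable_general hm ht (d := d) fun r hr => ?_
  obtain ⟨D, hD⟩ := h r hr
  exact ⟨D, D.family, hD, fun i k j => ⟨⟨i, k, j⟩, id, isometry_id⟩⟩

lemma not_good'_single (v : Ω) : ¬ Good' m s perp (MetricFamily.single Γ m) := by
  intro h
  exact not_van_univ v (h Unit (fun _ => Set.univ) fun _ _ => ⟨(), fun x => x.1, fun _ _ => rfl⟩)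

/-- A group with a tree of commuting subgroups does not have weak FDC. -/
theorem not_weakFDC_of_tree (v : Ω) : ¬ HasWeakFDC (MetricFamily.single Γ m) := fun h =>
  not_good'_single hm ht v (h _ (good'_bounded hm ht) (good'_stable hm ht))

end

end Pool.Agent.Y36.FD
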