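import Mathlib

/-!
# Thompson's group `F` contains its own square

`A` and `B` are the two standard generators (Cannon, Floyd and Parry), as permutations of the real
line which are the identity outside the unit interval.
-/

set_option autoImplicit false

namespace Pool.Agent.Y36.FD

/-- The generator `A` of Thompson's group `F`: `t/2` on `[0, 1/2]`, `t - 1/4` on `[1/2, 3/4]`,
`2 t - 1` on `[3/4, 1]`, and the identity outside `[0, 1]`. -/
noncomputable def thA : Equiv.Perm ℝ where
  toFun t := if t ≤ 0 then t else if t ≤ 1 / 2 then t / 2 else if t ≤ 3 / 4 then t - 1 / 4 else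
    if t ≤ 1 then 2 * t - 1 else t
  invFun t := if t ≤ 0 then t else if t ≤ 1 / 4 then 2 * t else if t ≤ 1 / 2 then t + 1 / 4 else
    if t ≤ 1 then (t + 1) / 2 else t
  left_inv t := by
    simp only
    split_ifs <;> linarith
  right_inv t := by
    simp only
    split_ifs <;> linarith

/-- The generator `B` of Thompson's group `F`: the identity on `[0, 1/2]`, `t/2 + 1/4` on
`[1/2, 3/4]`, `t - 1/8` on `[3/4, 7/8]`, `2 t - 1` on `[7/8, 1]`, and the identity outside
`[0, 1]`. -/
noncomputable def thB : Equiv.Perm ℝ where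
  toFun t := if t ≤ 1 / 2 then t else if t ≤ 3 / 4 then t / 2 + 1 / 4 else
    if t ≤ 7 / 8 then t - 1 / 8 else if t ≤ 1 then 2 * t - 1 else t
  invFun t := if t ≤ 1 / 2 then t else if t ≤ 5 / 8 then 2 * t - 1 / 2 else
    if t ≤ 3 / 4 then t + 1 / 8 else if t ≤ 1 then (t + 1) / 2 else t
  left_inv t := by
    simp only
    split_ifs <;> linarith
  right_inv t := by
    simp only
    split_ifs <;> linarith

/-- Thompson's group `F`. -/
noncomputable def thF : Subgroup (Equiv.Perm ℝ) := Subgroup.closure {thA, thB}

theorem thA_apply (t : ℝ) : thA t = if t ≤ 0 then t else if t ≤ 1 / 2 then t / 2 else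
    if t ≤ 3 / 4 then t - 1 / 4 else if t ≤ 1 then 2 * t - 1 else t := rfl

theorem thB_apply (t : ℝ) : thB t = if t ≤ 1 / 2 then t else if t ≤ 3 / 4 then t / 2 + 1 / 4 else
    if t ≤ 7 / 8 then t - 1 / 8 else if t ≤ 1 then 2 * t - 1 else t := rfl

/-- `t ↦ 2 t` -/
noncomputable def sc0 : Equiv.Perm ℝ where
  toFun t := 2 * t
  invFun t := t / 2
  left_inv t := by simp only; ring
  right_inv t := by simp only; ring

/-- `t ↦ 2 t - 1` -/
noncomputable def sc1 : Equiv.Perm ℝ where
  toFun t := 2 * t - 1
  invFun t := (t + 1) / 2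
  left_inv t := by simp only; ring
  right_inv t := by simp only; ring

/-- `f` acting on the left half of the unit interval. -/
noncomputable def inL : Equiv.Perm ℝ →* Equiv.Perm ℝ := (MulAut.conj sc0⁻¹).toMonoidHom

/-- `f` acting on the right half of the unit interval. -/
noncomputable def inR : Equiv.Perm ℝ →* Equiv.Perm ℝ := (MulAut.conj sc1⁻¹).toMonoidHom

theorem inL_apply (f : Equiv.Perm ℝ) (t : ℝ) : inL f t = f (2 * t) / 2 := by
  show (sc0⁻¹ * f * sc0⁻¹⁻¹) t = _
  rw [inv_inv]
  rfl

theorem inR_apply (f : Equiv.Perm ℝ) (t : ℝ) : inR f t = (f (2 * t - 1) + 1) / 2 := by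
  show (sc1⁻¹ * f * sc1⁻¹⁻¹) t = _
  rw [inv_inv]
  rfl

theorem inL_inj : Function.Injective inL := (MulAut.conj sc0⁻¹).injective
theorem inR_inj : Function.Injective inR := (MulAut.conj sc1⁻¹).injective

theorem A0 (t : ℝ) (h : t ≤ 0) : thA t = t := by
  rw [thA_apply, if_pos h]

theorem A1 (t : ℝ) (h : 0 ≤ t) (h' : t ≤ 1 / 2) : thA t = t / 2 := by
  rw [thA_apply]
  split_ifs <;> linarith

theorem A2 (t : ℝ) (h : 1 / 2 ≤ t) (h' : t ≤ 3 / 4) : thA t = t - 1 / 4 := by
  rw [thA_apply]
  split_ifs <;> linarith

theorem A3 (t : ℝ) (h : 3 / 4 ≤ t) (h' : t ≤ 1) : thA t = 2 * t - 1 := by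
  rw [thA_apply]
  split_ifs <;> linarith

theorem A4 (t : ℝ) (h : 1 ≤ t) : thA t = t := by
  rw [thA_apply]
  split_ifs <;> linarith

theorem B0 (t : ℝ) (h : t ≤ 1 / 2) : thB t = t := by
  rw [thB_apply, if_pos h]

theorem B2 (t : ℝ) (h : 1 / 2 ≤ t) (h' : t ≤ 3 / 4) : thB t = t / 2 + 1 / 4 := by
  rw [thB_apply]
  split_ifs <;> linarith

theorem B3 (t : ℝ) (h : 3 / 4 ≤ t) (h' : t ≤ 7 / 8) : thB t = t - 1 / 8 := by
  rw [thB_apply]
  split_ifs <;> linarith

theorem B4 (t : ℝ) (h : 7 / 8 ≤ t) (h' : t ≤ 1) : thB t = 2 * t - 1 := by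
  rw [thB_apply]
  split_ifs <;> linarith

theorem B5 (t : ℝ) (h : 1 ≤ t) : thB t = t := by
  rw [thB_apply]
  split_ifs <;> linarith

theorem inR_A : inR thA = thB := by
  refine Equiv.ext fun t => ?_
  rw [inR_apply]
  rcases le_total t (1 / 2) with u1 | u1
  · have e0 := A0 (2 * t - 1) (by linarith)
    have e1 := B0 (t) (by linarith)
    linarith
  rcases le_total t (3 / 4) with u2 | u2
  · have e0 := A1 (2 * t - 1) (by linarith) (by linarith)
    have e1 := B2 (t) (by linarith) (by linarith)
    linarith
  rcases le_total t (7 / 8) with u3 | u3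
  · have e0 := A2 (2 * t - 1) (by linarith) (by linarith)
    have e1 := B3 (t) (by linarith) (by linarith)
    linarith
  rcases le_total t (1) with u4 | u4
  · have e0 := A3 (2 * t - 1) (by linarith) (by linarith)
    have e1 := B4 (t) (by linarith) (by linarith)
    linarith
  have e0 := A4 (2 * t - 1) (by linarith)
  have e1 := B5 (t) (by linarith)
  linarith

theorem inR_B : thA * inR thB = thB * thA := by
  refine Equiv.ext fun t => ?_
  rw [Equiv.Perm.mul_apply, Equiv.Perm.mul_apply, inR_apply]
  rcases le_total t (0) with u1 | u1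
  · have e0 := B0 (2 * t - 1) (by linarith)
    have e1 := A0 ((thB (2 * t - 1) + 1) / 2) (by linarith)
    have e2 := A0 (t) (by linarith)
    have e3 := B0 (thA t) (by linarith)
    linarith
  rcases le_total t (1 / 2) with u2 | u2
  · have e0 := B0 (2 * t - 1) (by linarith)
    have e1 := A1 ((thB (2 * t - 1) + 1) / 2) (by linarith) (by linarith)
    have e2 := A1 (t) (by linarith) (by linarith)
    have e3 := B0 (thA t) (by linarith)
    linarith
  rcases le_total t (3 / 4) with u3 | u3
  · have e0 := B0 (2 * t - 1) (by linarith)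
    have e1 := A2 ((thB (2 * t - 1) + 1) / 2) (by linarith) (by linarith)
    have e2 := A2 (t) (by linarith) (by linarith)
    have e3 := B0 (thA t) (by linarith)
    linarith
  rcases le_total t (7 / 8) with u4 | u4
  · have e0 := B2 (2 * t - 1) (by linarith) (by linarith)
    have e1 := A3 ((thB (2 * t - 1) + 1) / 2) (by linarith) (by linarith)
    have e2 := A3 (t) (by linarith) (by linarith)
    have e3 := B2 (thA t) (by linarith) (by linarith)
    linarith
  rcases le_total t (15 / 16) with u5 | u5
  · have e0 := B3 (2 * t - 1) (by linarith) (by linarith)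
    have e1 := A3 ((thB (2 * t - 1) + 1) / 2) (by linarith) (by linarith)
    have e2 := A3 (t) (by linarith) (by linarith)
    have e3 := B3 (thA t) (by linarith) (by linarith)
    linarith
  rcases le_total t (1) with u6 | u6
  · have e0 := B4 (2 * t - 1) (by linarith) (by linarith)
    have e1 := A3 ((thB (2 * t - 1) + 1) / 2) (by linarith) (by linarith)
    have e2 := A3 (t) (by linarith) (by linarith)
    have e3 := B4 (thA t) (by linarith) (by linarith)
    linarith
  have e0 := B5 (2 * t - 1) (by linarith)
  have e1 := A4 ((thB (2 * t - 1) + 1) / 2) (by linarith)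
  have e2 := A4 (t) (by linarith)
  have e3 := B5 (thA t) (by linarith)
  linarith

theorem inL_A : inL thA * (thA * thB) = thA * thA := by
  refine Equiv.ext fun t => ?_
  rw [Equiv.Perm.mul_apply, Equiv.Perm.mul_apply, Equiv.Perm.mul_apply, inL_apply]
  rcases le_total t (0) with u1 | u1
  · have e0 := B0 (t) (by linarith)
    have e1 := A0 (thB t) (by linarith)
    have e2 := A0 (2 * thA (thB t)) (by linarith)
    have e3 := A0 (t) (by linarith)
    have e4 := A0 (thA t) (by linarith)
    linarith
  rcases le_total t (1 / 2) with u2 | u2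
  · have e0 := B0 (t) (by linarith)
    have e1 := A1 (thB t) (by linarith) (by linarith)
    have e2 := A1 (2 * thA (thB t)) (by linarith) (by linarith)
    have e3 := A1 (t) (by linarith) (by linarith)
    have e4 := A1 (thA t) (by linarith) (by linarith)
    linarith
  rcases le_total t (3 / 4) with u3 | u3
  · have e0 := B2 (t) (by linarith) (by linarith)
    have e1 := A2 (thB t) (by linarith) (by linarith)
    have e2 := A2 (2 * thA (thB t)) (by linarith) (by linarith)
    have e3 := A2 (t) (by linarith) (by linarith)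
    have e4 := A1 (thA t) (by linarith) (by linarith)
    linarith
  rcases le_total t (7 / 8) with u4 | u4
  · have e0 := B3 (t) (by linarith) (by linarith)
    have e1 := A2 (thB t) (by linarith) (by linarith)
    have e2 := A3 (2 * thA (thB t)) (by linarith) (by linarith)
    have e3 := A3 (t) (by linarith) (by linarith)
    have e4 := A2 (thA t) (by linarith) (by linarith)
    linarith
  rcases le_total t (1) with u5 | u5
  · have e0 := B4 (t) (by linarith) (by linarith)
    have e1 := A3 (thB t) (by linarith) (by linarith)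
    have e2 := A4 (2 * thA (thB t)) (by linarith)
    have e3 := A3 (t) (by linarith) (by linarith)
    have e4 := A3 (thA t) (by linarith) (by linarith)
    linarith
  have e0 := B5 (t) (by linarith)
  have e1 := A4 (thB t) (by linarith)
  have e2 := A4 (2 * thA (thB t)) (by linarith)
  have e3 := A4 (t) (by linarith)
  have e4 := A4 (thA t) (by linarith)
  linarith

theorem inL_B : inL thB * thA = thA * inR (inL thA) := by
  refine Equiv.ext fun t => ?_
  rw [Equiv.Perm.mul_apply, Equiv.Perm.mul_apply, inL_apply, inR_apply, inL_apply]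
  rcases le_total t (0) with u1 | u1
  · have e0 := A0 (t) (by linarith)
    have e1 := B0 (2 * thA t) (by linarith)
    have e2 := A0 (2 * (2 * t - 1)) (by linarith)
    have e3 := A0 ((thA (2 * (2 * t - 1)) / 2 + 1) / 2) (by linarith)
    linarith
  rcases le_total t (1 / 2) with u2 | u2
  · have e0 := A1 (t) (by linarith) (by linarith)
    have e1 := B0 (2 * thA t) (by linarith)
    have e2 := A0 (2 * (2 * t - 1)) (by linarith)
    have e3 := A1 ((thA (2 * (2 * t - 1)) / 2 + 1) / 2) (by linarith) (by linarith)
    linarith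
  rcases le_total t (5 / 8) with u3 | u3
  · have e0 := A2 (t) (by linarith) (by linarith)
    have e1 := B2 (2 * thA t) (by linarith) (by linarith)
    have e2 := A1 (2 * (2 * t - 1)) (by linarith) (by linarith)
    have e3 := A2 ((thA (2 * (2 * t - 1)) / 2 + 1) / 2) (by linarith) (by linarith)
    linarith
  rcases le_total t (11 / 16) with u4 | u4
  · have e0 := A2 (t) (by linarith) (by linarith)
    have e1 := B3 (2 * thA t) (by linarith) (by linarith)
    have e2 := A2 (2 * (2 * t - 1)) (by linarith) (by linarith)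
    have e3 := A2 ((thA (2 * (2 * t - 1)) / 2 + 1) / 2) (by linarith) (by linarith)
    linarith
  rcases le_total t (3 / 4) with u5 | u5
  · have e0 := A2 (t) (by linarith) (by linarith)
    have e1 := B4 (2 * thA t) (by linarith) (by linarith)
    have e2 := A3 (2 * (2 * t - 1)) (by linarith) (by linarith)
    have e3 := A2 ((thA (2 * (2 * t - 1)) / 2 + 1) / 2) (by linarith) (by linarith)
    linarith
  rcases le_total t (1) with u6 | u6
  · have e0 := A3 (t) (by linarith) (by linarith)
    have e1 := B5 (2 * thA t) (by linarith)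
    have e2 := A4 (2 * (2 * t - 1)) (by linarith)
    have e3 := A3 ((thA (2 * (2 * t - 1)) / 2 + 1) / 2) (by linarith) (by linarith)
    linarith
  have e0 := A4 (t) (by linarith)
  have e1 := B5 (2 * thA t) (by linarith)
  have e2 := A4 (2 * (2 * t - 1)) (by linarith)
  have e3 := A4 ((thA (2 * (2 * t - 1)) / 2 + 1) / 2) (by linarith)
  linarith

end Pool.Agent.Y36.FD
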