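import Pool.Agent.Y36.FD.Nerve

set_option autoImplicit false
set_option linter.unusedSectionVars false

namespace Pool.Agent.Y36.FD

variable {Γ : Type} [Group Γ] {Ω : Type} {A : Ω → Type} {J L : Type}

/-- `x` is `B`-close to all the pieces with label in `T`. -/
def RN (S : J → Set Γ) (lab : J → Γ → L) (B : Set Γ) (m : ℕ) (x : Γ) (j : J) (T : Finset L) :
    Prop := T.card = m ∧ ∀ t ∈ T, ∃ y ∈ S j, ∃ b ∈ B, x = y * b ∧ lab j y = t

lemma RN.mono {S : J → Set Γ} {lab : J → Γ → L} {B B' : Set Γ} (h : B ⊆ B') {m : ℕ} {x : Γ}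
    {j : J} {T : Finset L} (hx : RN S lab B m x j T) : RN S lab B' m x j T :=
  ⟨hx.1, fun t ht => by
    obtain ⟨y, hy, b, hb, h1⟩ := hx.2 t ht
    exact ⟨y, hy, b, h hb, h1⟩⟩

/-- The coefficient of `T` is supported near the pieces with label in `T`. -/
def Near (S : J → Set Γ) (lab : J → Γ → L) (m : ℕ) (f : Γ → J → Nv L) : Prop :=
  ∃ B : Set Γ, B.Finite ∧ PT (RN S lab B m) f

lemma PT.mono {R R' : Γ → J → Finset L → Prop} (h : ∀ x j T, R x j T → R' x j T)
    {f : Γ → J → Nv L} (hf : PT R f) : PT R' f := fun x j T hx => h x j T (hf x j T hx)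

lemma good_Near (S : J → Set Γ) (lab : J → Γ → L) (m : ℕ) : Good (Near S lab m) where
  zero := ⟨∅, Set.finite_empty, PT.zero _⟩
  add := by
    rintro f g ⟨B, hB, hf⟩ ⟨C, hC, hg⟩
    exact ⟨B ∪ C, hB.union hC,
      (hf.mono fun x j T h => h.mono Set.subset_union_left).add
        (hg.mono fun x j T h => h.mono Set.subset_union_right)⟩
  tr := by
    rintro g f ⟨B, hB, hf⟩
    refine ⟨(fun b => b * g⁻¹) '' B, hB.image _, fun x j T h => ?_⟩
    obtain ⟨h1, h2⟩ := hf (x * g) j T h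
    refine ⟨h1, fun t ht => ?_⟩
    obtain ⟨y, hy, b, hb, h3, h4⟩ := h2 t ht
    exact ⟨y, hy, b * g⁻¹, ⟨b, hb, rfl⟩, by rw [← mul_assoc, ← h3, mul_inv_cancel_right], h4⟩

lemma near_bdF {S : J → Set Γ} {lab : J → Γ → L} {m : ℕ} {f : Γ → J → Nv L}
    (hf : Near S lab (m + 1) f) : Near S lab m (bdF f) := by
  obtain ⟨B, hB, hf⟩ := hf
  refine ⟨B, hB, fun x j T h => ?_⟩
  obtain ⟨T', h1, h2, h3⟩ := bd_ne h
  obtain ⟨h4, h5⟩ := hf x j T' h1
  exact ⟨by omega, fun t ht => h5 t (h2 ht)⟩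

lemma ms_ev_bdF {S : J → Set Γ} {lab : J → Γ → L} {f : Γ → J → Nv L}
    (hf : Near S lab 1 f) : MS S (ev (bdF f)) := by
  obtain ⟨B, hB, hf⟩ := hf
  refine ⟨B, hB, fun x j h => ?_⟩
  obtain ⟨T', h1, h2, h3⟩ := bd_ne (f := f x j) (T := ∅) h
  obtain ⟨h4, h5⟩ := hf x j T' h1
  obtain ⟨t, ht⟩ := Finset.card_pos.1 (by omega : 0 < T'.card)
  obtain ⟨y, hy, b, hb, h6, _⟩ := h5 t ht
  exact ⟨y, hy, b, hb, h6⟩

/-- Splitting into coefficients. -/
def unc : (Γ → J → Nv L) →+ (Γ → J × Finset L → ZMod 2) where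
  toFun f := fun x p => f x p.1 p.2
  map_zero' := rfl
  map_add' _ _ := rfl

lemma unc_inj : Function.Injective (unc : (Γ → J → Nv L) →+ (Γ → J × Finset L → ZMod 2)) := by
  intro f g h
  funext x j
  ext T
  exact congrFun (congrFun h x) (j, T)

/-- The family of sets of points near all pieces. -/
def SP (S : J → Set Γ) (lab : J → Γ → L) (F : Set Γ) (m : ℕ) (p : J × Finset L) : Set Γ :=
  {y | y ∈ S p.1 ∧ p.2.card = m ∧ (∃ h : p.2.Nonempty, lab p.1 y = h.choose) ∧
    ∀ t ∈ p.2, ∃ y' ∈ S p.1, lab p.1 y' = t ∧ y⁻¹ * y' ∈ F}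

lemma lift_unc {S : J → Set Γ} {lab : J → Γ → L} {F : Set Γ} (hF : F.Finite) {m : ℕ}
    (W : List Ω) (c : Co A (Γ → J × Finset L → ZMod 2) W) (hc : Ent (MS (SP S lab F m)) W c) :
    ∃ c', mp unc W c' = c ∧ Ent (Near S lab m) W c' := by
  classical
  induction W with
  | nil =>
    obtain ⟨B, hB, h⟩ := hc
    have hfin : ∀ x j, (Function.support fun T => (c : Γ → J × Finset L → ZMod 2) x (j, T)).Finite := by
      intro x j
      set Q : Set L := (fun y => lab j y) '' ((fun g => x * g) ''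
        (Set.image2 (fun b f => b⁻¹ * f) B F)) with hQ
      have hQfin : Q.Finite := ((hB.image2 _ hF).image _).image _
      refine (hQfin.toFinset.powerset.finite_toSet).subset ?_
      intro T hT
      obtain ⟨y, hy, b, hb, hx⟩ := h x (j, T) hT
      rw [Finset.mem_coe, Finset.mem_powerset]
      intro t ht
      rw [Set.Finite.mem_toFinset]
      obtain ⟨y', hy', h1, h2⟩ := hy.2.2.2 t ht
      refine ⟨y', ⟨b⁻¹ * (y⁻¹ * y'), ⟨b, hb, _, h2, rfl⟩, ?_⟩, h1⟩
      simp only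
      rw [hx]
      group
    refine ⟨fun x j => Finsupp.ofSupportFinite _ (hfin x j), rfl, ?_⟩
    refine ⟨Set.image2 (fun f b => f⁻¹ * b) F B, hF.image2 _ hB, fun x j T hT => ?_⟩
    obtain ⟨y, hy, b, hb, hx⟩ := h x (j, T) hT
    refine ⟨hy.2.1, fun t ht => ?_⟩
    obtain ⟨y', hy', h1, h2⟩ := hy.2.2.2 t ht
    refine ⟨y', hy', (y⁻¹ * y')⁻¹ * b, ⟨_, h2, b, hb, rfl⟩, ?_, h1⟩
    rw [hx]
    group
  | cons v W ih =>
    obtain ⟨c0, h0, h0'⟩ := ih c.z hc.1
    choose c1 h1 h1' using fun a => ih (c.o a) (hc.2 a)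
    exact ⟨Co.mk c0 c1, Co.ext h0 h1, h0', h1'⟩

/-- Vanishing for the pieces gives vanishing for cochains with values in the simplices. -/
lemma near_exact [∀ w, Finite (A w)] {s : (w : Ω) → A w → Γ} {perp : Ω → Ω → Prop} {S : J → Set Γ}
    {lab : J → Γ → L}
    (hV : ∀ (I : Type) (S' : I → Set Γ), (∀ i, ∃ j l, S' i ⊆ {y | y ∈ S j ∧ lab j y = l}) →
      Van s perp S') {W : List Ω} (hW : W.Pairwise perp) {m : ℕ} (hm : 1 ≤ m)
    {c : Co A (Γ → J → Nv L) W} (hlt : Lt W W.length c) (hclosed : del s W c = 0)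
    (hc : Ent (Near S lab m) W c) : ∃ b, Ent (Near S lab m) W b ∧ del s W b = c := by
  classical
  obtain ⟨B, hB, hcB⟩ := hc.unif (Q := fun B f => PT (RN S lab B m) f) (fun f hf => hf)
    (fun B B' f h hf => hf.mono fun x j T h' => h'.mono h)
  set F : Set Γ := Set.image2 (fun b b' => b * b'⁻¹) B B with hF
  have hFfin : F.Finite := hB.image2 _ hB
  have hSP : ∀ p : J × Finset L, ∃ j l, SP S lab F m p ⊆ {y | y ∈ S j ∧ lab j y = l} := by
    intro p
    by_cases hp : p.2.Nonempty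
    · exact ⟨p.1, hp.choose, fun y hy => ⟨hy.1, hy.2.2.1.2⟩⟩
    · exact ⟨p.1, lab p.1 1, fun y hy => absurd hy.2.2.1.1 hp⟩
  have hcm : ∀ w ∈ W, ∀ a, unc.comp (tr (s w a)) =
      ((tr (s w a)).comp unc : (Γ → J → Nv L) →+ (Γ → J × Finset L → ZMod 2)) :=
    fun _ _ _ => rfl
  obtain ⟨b, hb1, hb2⟩ := hV _ (SP S lab F m) hSP W hW (mp unc W c) (hlt.mp _)
    (by rw [del_mp s _ W hcm, hclosed, map_zero])
    (by
      refine Ent.mp (P := PT (RN S lab B m)) ?_ hcB
      intro f hf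
      refine ⟨B, hB, fun x p hx => ?_⟩
      obtain ⟨h1, h2⟩ := hf x p.1 p.2 hx
      have hne : p.2.Nonempty := Finset.card_pos.1 (by omega)
      obtain ⟨y, hy, b, hb, h3, h4⟩ := h2 _ hne.choose_spec
      refine ⟨y, ⟨hy, h1, ⟨hne, h4⟩, fun t ht => ?_⟩, b, hb, h3⟩
      obtain ⟨y', hy', b', hb', h5, h6⟩ := h2 t ht
      refine ⟨y', hy', h6, b, hb, b', hb', ?_⟩
      simp only
      have h7 : y * b = y' * b' := by rw [← h3, ← h5]
      calc b * b'⁻¹ = y⁻¹ * (y * b) * b'⁻¹ := by group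
        _ = y⁻¹ * y' := by rw [h7]; group)
  obtain ⟨b', h1, h2⟩ := lift_unc hFfin W b hb1
  refine ⟨b', h2, mp_inj unc_inj W ?_⟩
  rw [← del_mp s _ W hcm, h1, hb2]

/-- The main vanishing result for families which are decomposed with `d + 1` colours. -/
theorem exact_of_labels [∀ w, Finite (A w)] {s : (w : Ω) → A w → Γ} {perp : Ω → Ω → Prop} (ht : Tree s perp)
    {S : J → Set Γ} (d : ℕ)
    (hS : ∀ F : Set Γ, F.Finite → ∃ (L : Type) (lab : J → Γ → L) (col : L → Fin (d + 1)),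
      (∀ j, ∀ x ∈ S j, ∀ y ∈ S j, x⁻¹ * y ∈ F → col (lab j x) = col (lab j y) →
        lab j x = lab j y) ∧
      ∀ (I : Type) (S' : I → Set Γ), (∀ i, ∃ j l, S' i ⊆ {y | y ∈ S j ∧ lab j y = l}) →
        Van s perp S')
    {W : List Ω} (hW : W.Pairwise perp) (p : ℕ) (hp : p + d < W.length)
    (z : Co A (Γ → J → ZMod 2) W) (hlt : Lt W (p + 1) z) (hclosed : del s W z = 0)
    (hz : Ent (MS S) W z) : ∃ b, Ent (MS S) W b ∧ del s W b = z := by
  classical
  obtain ⟨B, hB, hzB⟩ := hz.unif (Q := NS S) (fun f hf => hf)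
    (fun _ _ _ h1 h2 => h2.mono h1)
  set T : Set Γ := ⋃ w ∈ {w | w ∈ W}, ⋃ a, {s w a} with hT
  have hTfin : T.Finite := (List.finite_toSet W).biUnion fun w _ =>
    Set.finite_iUnion fun a => Set.finite_singleton _
  have hTmem : ∀ w ∈ W, ∀ a, s w a ∈ T := by
    intro w hw a
    rw [hT, Set.mem_iUnion₂]
    exact ⟨w, hw, Set.mem_iUnion.2 ⟨a, rfl⟩⟩
  -- the finite sets
  set G : Set Γ := Gs T (d + 1) with hG
  have hGfin : G.Finite := Gs_finite hTfin _
  set B1 : Set Γ := Bs B T (0 + W.length) with hB1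
  have hB1fin : B1.Finite := Bs_finite hB hTfin _
  set B2 : Set Γ := Set.image2 (fun b g => b * g) B1 G with hB2
  have hB2fin : B2.Finite := hB1fin.image2 _ hGfin
  set C : Set Γ := Set.image2 (fun b g => b * g⁻¹) B2 G with hC
  have hCfin : C.Finite := hB2fin.image2 _ hGfin
  set F : Set Γ := Set.image2 (fun c c' => c * c'⁻¹) C C with hF
  have hFfin : F.Finite := hCfin.image2 _ hCfin
  obtain ⟨L, lab, col, hcol, hV⟩ := hS F hFfin
  -- the labels
  have hl : ∃ l : Γ → J → L, ∀ x j, (∃ y ∈ S j, ∃ b ∈ B2, x = y * b) →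
      ∃ y ∈ S j, ∃ b ∈ B2, x = y * b ∧ lab j y = l x j := by
    refine ⟨fun x j => if h : ∃ y ∈ S j, ∃ b ∈ B2, x = y * b then lab j h.choose else lab j 1,
      fun x j h => ?_⟩
    obtain ⟨h1, b, hb, h2⟩ := h.choose_spec
    refine ⟨h.choose, h1, b, hb, h2, ?_⟩
    simp only
    rw [dif_pos h]
  obtain ⟨l, hl⟩ := hl
  have hWc := ht.pairwise hW
  set w := wS s l W with hw
  -- support of the product
  have hsupp : ∀ k, k ≤ d + 1 → Ent (PT (RN S lab C (k + 1))) W (cup s W (w k) z) := by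
    intro k hk
    have h1 := ent_cup (s := s) (S := S) (B := B) hTmem 0 (ent_wS (s := s) (l := l) hTmem k) hzB
    refine h1.mono fun f hf => hf.mono ?_
    rintro x j T' ⟨⟨h2, h3⟩, y, hy, b, hb, h4⟩
    refine ⟨h2, fun t ht => ?_⟩
    obtain ⟨g, hg, h5⟩ := h3 t ht
    have hg' : g ∈ G := Gs_mono hk hg
    obtain ⟨y', hy', b', hb', h6, h7⟩ := hl (x * g) j
      ⟨y, hy, b * g, ⟨b, hb, g, hg', rfl⟩, by rw [h4, mul_assoc]⟩
    refine ⟨y', hy', b' * g⁻¹, ⟨b', hb', g, hg', rfl⟩, ?_, by rw [h7, h5]⟩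
    rw [← mul_assoc, ← h6, mul_inv_cancel_right]
  -- the product vanishes in degree `d + 1`
  have hzero : cup s W (w (d + 1)) z = 0 := by
    have h1 : Ent (fun f : Γ → J → Nv L => f = 0) W (cup s W (w (d + 1)) z) := by
      refine (hsupp (d + 1) le_rfl).mono fun f hf => ?_
      funext x j
      ext T'
      by_contra hne
      obtain ⟨h2, h3⟩ := hf x j T' hne
      have hinj : Set.InjOn col T' := by
        intro t ht t' ht' htt
        obtain ⟨y, hy, c, hc, h4, h5⟩ := h3 t ht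
        obtain ⟨y', hy', c', hc', h6, h7⟩ := h3 t' ht'
        rw [← h5, ← h7]
        refine hcol j y hy y' hy' ?_ (by rw [h5, h7, htt])
        refine ⟨c, hc, c', hc', ?_⟩
        have h8 : y * c = y' * c' := by rw [← h4, ← h6]
        simp only
        calc c * c'⁻¹ = y⁻¹ * (y * c) * c'⁻¹ := by group
          _ = y⁻¹ * y' := by rw [h8]; group
      have h4 := Finset.card_le_card_of_injOn (t := (Finset.univ : Finset (Fin (d + 1)))) col
        (fun _ _ => by simp) hinj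
      rw [Finset.card_univ, Fintype.card_fin] at h4
      omega
    clear_value w
    have key : ∀ (W : List Ω) (c : Co A (Γ → J → Nv L) W),
        Ent (fun f : Γ → J → Nv L => f = 0) W c → c = 0 := by
      intro W
      induction W with
      | nil => intro c h; exact h
      | cons v W ih => intro c h; exact Co.ext (ih _ h.1) fun a => ih _ (h.2 a)
    exact key W _ h1
  -- the differential of the products
  have hdel : ∀ k, del s W (cup s W (w k) z) = mp bdF W (cup s W (w (k + 1)) z) := by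
    intro k
    rw [del_cup hWc, hclosed, cup_zero_right, add_zero, cup_bd, hw, (del_bd_wS hWc k).2]
  -- descending induction
  have hmain : ∀ i, i ≤ d + 1 → ∃ V : Co A (Γ → J → Nv L) W,
      Ent (Near S lab (d + 1 - i + 1)) W V ∧ Lt W (p + (d + 1 - i)) V ∧
      mp bdF W (del s W V) = mp bdF W (cup s W (w (d + 1 - i)) z) := by
    intro i
    induction i with
    | zero =>
      intro _
      refine ⟨0, Ent.zero (good_Near _ _ _).zero _, Lt.zero _, ?_⟩
      rw [Nat.sub_zero, hzero, map_zero, map_zero]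
    | succ i ih =>
      intro hi
      obtain ⟨V, h1, h2, h3⟩ := ih (by omega)
      obtain ⟨k, hk⟩ : ∃ k, d + 1 - i = k + 1 := ⟨d - i, by omega⟩
      have hk' : d + 1 - (i + 1) = k := by omega
      have hkd : k ≤ d := by omega
      rw [hk] at h1 h2 h3
      rw [hk']
      have hclt : Lt W (p + k + 1) (cup s W (w k) z + mp bdF W V) := by
        refine (lt_cup (k + 1) (p + 1) (p + k + 1) (by omega) (lt_wS k) hlt).add ?_
        exact (h2.mp bdF).mono (by omega)
      have hcc : del s W (cup s W (w k) z + mp bdF W V) = 0 := by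
        rw [map_add, hdel, del_bdF, h3, Two.add_self]
      have hcn : Ent (Near S lab (k + 1)) W (cup s W (w k) z + mp bdF W V) := by
        refine Ent.add (good_Near S lab (k + 1)).add ?_ (Ent.mp (fun f hf => near_bdF hf) h1)
        exact (hsupp k (by omega)).mono fun f hf => ⟨C, hCfin, hf⟩
      obtain ⟨V', h4, h5⟩ := near_exact hV hW (by omega) (hclt.mono (by omega)) hcc hcn
      obtain ⟨V'', h6, h7, h8⟩ := primitive_lt (good_Near S lab (k + 1)) h4 h5 hclt
      refine ⟨V'', h6, h8, ?_⟩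
      rw [h7, map_add, bdF_bdF, add_zero]
  obtain ⟨V, h1, h2, h3⟩ := hmain (d + 1) le_rfl
  rw [Nat.sub_self] at h1 h2 h3
  refine ⟨mp ev W (mp bdF W V), ?_, ?_⟩
  · rw [mp_comp]
    exact Ent.mp (fun f hf => ms_ev_bdF hf) h1
  · have h4 : del s W (mp ev W (mp bdF W V)) = mp ev W (mp bdF W (del s W V)) := by
      rw [del_mp s _ W (fun _ _ _ => rfl), del_bdF]
    rw [h4, h3, cup_bd, hw, bd_wS_zero, ev_cup]

/-- **The step theorem.** -/
theorem van_step [∀ w, Finite (A w)] {s : (w : Ω) → A w → Γ} {perp : Ω → Ω → Prop} (ht : Tree s perp)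
    {S : J → Set Γ} (d : ℕ)
    (hS : ∀ F : Set Γ, F.Finite → ∃ (L : Type) (lab : J → Γ → L) (col : L → Fin (d + 1)),
      (∀ j, ∀ x ∈ S j, ∀ y ∈ S j, x⁻¹ * y ∈ F → col (lab j x) = col (lab j y) →
        lab j x = lab j y) ∧
      ∀ (I : Type) (S' : I → Set Γ), (∀ i, ∃ j l, S' i ⊆ {y | y ∈ S j ∧ lab j y = l}) →
        Van s perp S') : Van s perp S := by
  refine van_of_TT ht fun v W hW hE c hclosed hent hinv => ?_
  have hW' := List.pairwise_cons.1 hW
  obtain ⟨V, hV1, hV2, hV3, hV4⟩ := ht.refine v (d + 1)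
  have hVW : (V ++ W).Pairwise perp := by
    rw [List.pairwise_append]
    exact ⟨hV2, hW'.2, fun u hu w hw => hV4 u hu w (hW'.1 w hw)⟩
  have hfix := fix_closure (good_MS S) c (Set.range (s v)) (by
    rintro g ⟨a, rfl⟩
    exact ⟨fun w hw b => ht.comm v w (hW'.1 w hw) a b, hinv a⟩)
  obtain ⟨c', h1, h2, h3, h4⟩ := extend (good_MS S) V (ht.pairwise hVW) hE c
    (lt_top _ (Nat.lt_succ_self _) _) hclosed hent
    (fun u hu a => (hfix _ (hV3 u hu a)).2)
  obtain ⟨b, h5, h6⟩ := exact_of_labels ht d hS hVW W.length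
    (by rw [List.length_append, hV1]; omega) c' h1 h2 h3
  refine ⟨pj V W b, h5.pj, ?_⟩
  rw [← pj_del, h6, h4]

end Pool.Agent.Y36.FD
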