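import Pool.Agent.Y36.FD.BranchFDC
import Pool.Agent.Y36.FD.ThSq
import Pool.Agent.Y36.SG.Square
import Pool.Agent.H812R5.Stmts
import Pool.Agent.H812R5.Main
import Pool.Agent.H812R5.Hex
import Pool.Agent.H812R5.Pig
import Pool.Agent.H812R5.G
import Pool.Agent.H812R5.F

/-!
# Binary systems of commuting finitely generated subgroups and superpolynomial growth
-/

set_option autoImplicit false

namespace Pool.Agent.Y36.FD

open Pool.Agent.TH87.FDC (perp)
open H812R5 (Words SuperPoly WHyperdimLE wd)
open Pool.Agent.Y36.SG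

section

variable {Γ : Type} [Group Γ] {H : List Bool → Subgroup Γ}

theorem exists_gen {K : Subgroup Γ} (hK : K.FG) :
    ∃ T : Set K, T.Finite ∧ Subgroup.closure T = ⊤ := by
  have h1 : Group.FG K := (Group.fg_iff_subgroup_fg _).2 hK
  obtain ⟨S, h2, h3⟩ := Group.fg_iff.1 h1
  exact ⟨S, h3, h2⟩

/-- The growth of the groups of a binary system is faster than every polynomial. -/
theorem growth_pow (hH : BinSys H) (hfg : ∀ w, (H w).FG) (hinf : ∀ w, (H w : Set Γ).Infinite)
    (D : ℕ) : ∀ (w : List Bool) (T : Set (H w)), T.Finite → Subgroup.closure T = ⊤ →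
      ∃ c : ℕ, 1 ≤ c ∧ ∀ m : ℕ, (m + 1) ^ D ≤ wball T (c * m) := by
  induction D with
  | zero =>
    intro w T hf hT
    exact ⟨1, le_rfl, fun m => by rw [pow_zero]; exact wball_pos hf hT _⟩
  | succ D ih =>
    intro w T hf hT
    obtain ⟨T0, hf0, hT0⟩ := exists_gen (hfg (w ++ [false]))
    obtain ⟨T1, hf1, hT1⟩ := exists_gen (hfg (w ++ [true]))
    obtain ⟨c, hc, h1⟩ := ih (w ++ [true]) T1 hf1 hT1
    obtain ⟨K0, hK0, hl0⟩ := exists_lip_hom (Subgroup.inclusion (hH.le w false)) hf0 hT0 hT
    obtain ⟨K1, hK1, hl1⟩ := exists_lip_hom (Subgroup.inclusion (hH.le w true)) hf1 hT1 hT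
    refine ⟨K0 + K1 * c, by omega, fun m => ?_⟩
    have hI : Infinite (H (w ++ [false])) := (hinf _).to_subtype
    have h2 : m + 1 ≤ wball T0 m := lt_wball hf0 hT0 m
    have : Finite {z : H w // wlen T z ≤ (K0 + K1 * c) * m} := ball_finite hf hT _
    have : Finite {x : H (w ++ [false]) // wlen T0 x ≤ m} := ball_finite hf0 hT0 _
    have : Finite {x : H (w ++ [true]) // wlen T1 x ≤ c * m} := ball_finite hf1 hT1 _
    have hle : ∀ (x : {x : H (w ++ [false]) // wlen T0 x ≤ m})
        (y : {x : H (w ++ [true]) // wlen T1 x ≤ c * m}),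
        wlen T (Subgroup.inclusion (hH.le w false) x.1 * Subgroup.inclusion (hH.le w true) y.1) ≤
          (K0 + K1 * c) * m := by
      intro x y
      refine (wlen_mul_le hT _ _).trans ?_
      calc _ ≤ K0 * m + K1 * (c * m) :=
            Nat.add_le_add ((hl0 _).trans (Nat.mul_le_mul_left _ x.2))
              ((hl1 _).trans (Nat.mul_le_mul_left _ y.2))
        _ = (K0 + K1 * c) * m := by ring
    have h3 := Nat.card_le_card_of_injective
      (fun p : {x : H (w ++ [false]) // wlen T0 x ≤ m} ×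
          {x : H (w ++ [true]) // wlen T1 x ≤ c * m} =>
        (⟨Subgroup.inclusion (hH.le w false) p.1.1 * Subgroup.inclusion (hH.le w true) p.2.1,
          hle p.1 p.2⟩ : {z : H w // wlen T z ≤ (K0 + K1 * c) * m})) (by
        rintro ⟨⟨⟨x, hx⟩, hx'⟩, ⟨⟨y, hy⟩, hy'⟩⟩ ⟨⟨⟨z, hz⟩, hz'⟩, ⟨⟨u, hu⟩, hu'⟩⟩ he
        have he1 : x * y = z * u := congrArg (fun a => ((a.1 : H w) : Γ)) he
        have he2 : z⁻¹ * x = u * y⁻¹ := by
          rw [inv_mul_eq_iff_eq_mul, ← mul_assoc, ← he1, mul_inv_cancel_right]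
        have he3 : z⁻¹ * x = 1 := by
          refine hH.disj w _ (mul_mem (inv_mem hz) hx) ?_
          rw [he2]
          exact mul_mem hu (inv_mem hy)
        have he4 : x = z := (inv_mul_eq_one.1 he3).symm
        have he5 : y = u := by
          rw [he3] at he2
          exact (mul_inv_eq_one.1 he2.symm).symm
        subst he4
        subst he5
        rfl)
    rw [Nat.card_prod] at h3
    rw [pow_succ, mul_comm]
    exact (Nat.mul_le_mul h2 (h1 m)).trans h3

open Classical in
/-- A finite symmetric set containing `1`. -/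
noncomputable def symSet {K : Subgroup Γ} {T : Set K} (hT : T.Finite) : Finset Γ :=
  insert 1 (hT.toFinset.image (fun x : K => (x : Γ)) ∪
    hT.toFinset.image (fun x : K => (x : Γ)⁻¹))

theorem symSet_le {K : Subgroup Γ} {T : Set K} (hT : T.Finite) : ∀ g ∈ symSet hT, g ∈ K := by
  classical
  intro g hg
  simp only [symSet, Finset.mem_insert, Finset.mem_union, Finset.mem_image] at hg
  rcases hg with rfl | ⟨x, -, rfl⟩ | ⟨x, -, rfl⟩
  · exact one_mem _
  · exact x.2
  · exact inv_mem x.2

theorem one_mem_symSet {K : Subgroup Γ} {T : Set K} (hT : T.Finite) : (1 : Γ) ∈ symSet hT := by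
  classical
  simp [symSet]

theorem mem_symSet {K : Subgroup Γ} {T : Set K} (hT : T.Finite) (x : K)
    (hx : x ∈ T ∨ x⁻¹ ∈ T) : (x : Γ) ∈ symSet hT := by
  classical
  simp only [symSet, Finset.mem_insert, Finset.mem_union, Finset.mem_image, Set.Finite.mem_toFinset]
  rcases hx with hx | hx
  · exact Or.inr (Or.inl ⟨x, hx, rfl⟩)
  · exact Or.inr (Or.inr ⟨x⁻¹, hx, by simp⟩)

theorem mem_words {K : Subgroup Γ} {T : Set K} (hT : T.Finite) (hc : Subgroup.closure T = ⊤)
    {L : ℕ} (x : K) (hx : wlen T x ≤ L) : (x : Γ) ∈ Words (symSet hT) L := by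
  obtain ⟨l, h1, h2, h3⟩ := exists_geod hc x
  refine ⟨l.map K.subtype ++ List.replicate (L - l.length) 1, ?_, ?_, ?_⟩
  · rw [List.length_append, List.length_map, List.length_replicate]
    omega
  · intro y hy
    rcases List.mem_append.1 hy with hy | hy
    · obtain ⟨z, hz, rfl⟩ := List.mem_map.1 hy
      exact mem_symSet hT z (h2 z hz)
    · rw [List.eq_of_mem_replicate hy]
      exact one_mem_symSet hT
  · rw [List.prod_append, List.prod_replicate, one_pow, mul_one, ← h3]
    exact (map_list_prod K.subtype l).symm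

theorem wball_le_words {K : Subgroup Γ} {T : Set K} (hT : T.Finite)
    (hc : Subgroup.closure T = ⊤) (L : ℕ) : wball T L ≤ (Words (symSet hT) L).ncard := by
  have hfin := H812R5.G.words_finite (symSet hT) L
  have : Finite (Words (symSet hT) L) := hfin.to_subtype
  rw [← Nat.card_coe_set_eq]
  refine Nat.card_le_card_of_injective
    (fun x : {x : K // wlen T x ≤ L} => (⟨(x.1 : Γ), mem_words hT hc x.1 x.2⟩ :
      Words (symSet hT) L)) ?_
  intro x y h
  have h1 : (x.1 : Γ) = (y.1 : Γ) := congrArg (fun a : Words (symSet hT) L => (a : Γ)) h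
  exact Subtype.ext (Subtype.ext h1)

/-- the words `1 ⋯ 1 0` -/
def vw (i : ℕ) : List Bool := List.replicate i true ++ [false]

theorem perp_vw {i j : ℕ} (h : i < j) : perp (vw i) (vw j) := by
  induction i generalizing j with
  | zero =>
    obtain ⟨j, rfl⟩ := Nat.exists_eq_succ_of_ne_zero (by omega : j ≠ 0)
    exact Or.inl (by simp)
  | succ i ih =>
    obtain ⟨j, rfl⟩ := Nat.exists_eq_succ_of_ne_zero (by omega : j ≠ 0)
    exact Or.inr ⟨rfl, ih (by omega)⟩

/-- **A group with a binary system of infinite finitely generated subgroups contains arbitrarily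
many commuting finite sets of superpolynomial growth.** -/
theorem superPoly_of_binSys (hH : BinSys H) (hfg : ∀ w, (H w).FG)
    (hinf : ∀ w, (H w : Set Γ).Infinite) : SuperPoly (⊤ : Subgroup Γ) := by
  intro n
  have hT : ∀ w, ∃ T : Set (H w), T.Finite ∧ Subgroup.closure T = ⊤ := fun w => exists_gen (hfg w)
  choose T hf hc using hT
  refine ⟨fun i => symSet (hf (vw i)), fun _ _ _ => trivial, ?_, ?_⟩
  · intro i j hij g hg h hh
    have hg' := symSet_le _ g hg
    have hh' := symSet_le _ h hh
    rcases lt_or_gt_of_ne (fun e => hij (Fin.ext e) : (i : ℕ) ≠ j) with hlt | hlt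
    · exact (hH.comm_perp (perp_vw hlt) hg' hh').eq
    · exact (hH.comm_perp (perp_vw hlt) hh' hg').eq.symm
  · intro D K
    have h1 := fun i : Fin n => growth_pow hH hfg hinf (D + 1) (vw i) (T (vw i)) (hf _) (hc _)
    choose c hc1 hc2 using h1
    set C : ℕ := 1 + ∑ i, c i with hC
    have hcC : ∀ i, c i ≤ C := fun i => by
      have := Finset.single_le_sum (f := c) (fun _ _ => Nat.zero_le _) (Finset.mem_univ i)
      omega
    set m : ℕ := K * C ^ D + 1 with hm
    refine ⟨C * m, Nat.succ_le_of_lt (by positivity), fun i => ?_⟩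
    refine le_trans ?_ (wball_le_words (hf (vw i)) (hc (vw i)) (C * m))
    refine le_trans ?_ (wball_mono (hf (vw i)) (hc (vw i)) (Nat.mul_le_mul_right m (hcC i)))
    refine le_trans ?_ (hc2 i m)
    calc K * (C * m) ^ D = (K * C ^ D) * m ^ D := by rw [mul_pow, mul_assoc]
      _ ≤ (m + 1) * (m + 1) ^ D :=
        Nat.mul_le_mul (by omega) (Nat.pow_le_pow_left (Nat.le_succ m) D)
      _ = (m + 1) ^ (D + 1) := (pow_succ' _ _).symm

theorem superPoly_map {Δ : Type} [Group Δ] {K : Subgroup Δ} (h : SuperPoly K) (ι : Δ →* Γ)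
    (hι : Function.Injective ι) {M : Subgroup Γ} (hM : K.map ι ≤ M) : SuperPoly M := by
  classical
  intro n
  obtain ⟨U, h1, h2, h3⟩ := h n
  refine ⟨fun i => (U i).image ι, ?_, ?_, ?_⟩
  · intro i g hg
    obtain ⟨x, hx, rfl⟩ := Finset.mem_image.1 hg
    exact hM ⟨x, h1 i x hx, rfl⟩
  · intro i j hij g hg h hh
    obtain ⟨x, hx, rfl⟩ := Finset.mem_image.1 hg
    obtain ⟨y, hy, rfl⟩ := Finset.mem_image.1 hh
    rw [← map_mul, h2 i j hij x hx y hy, map_mul]
  · intro D K'
    obtain ⟨L, hL, h4⟩ := h3 D K'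
    refine ⟨L, hL, fun i => (h4 i).trans ?_⟩
    have hsub : ι '' Words (U i) L ⊆ Words ((U i).image ι) L := by
      rintro _ ⟨g, ⟨l, hl1, hl2, rfl⟩, rfl⟩
      refine ⟨l.map ι, by rw [List.length_map, hl1], ?_, (map_list_prod ι l).symm⟩
      intro x hx
      obtain ⟨y, hy, rfl⟩ := List.mem_map.1 hx
      exact Finset.mem_image_of_mem _ (hl2 y hy)
    rw [← Set.ncard_image_of_injective _ hι]
    exact Set.ncard_le_ncard hsub (H812R5.G.words_finite _ _)

end

/-- No finitely generated group which contains a copy of `Δ` has finite weak hyperbolic dimension: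
here the group is the subgroup generated by a finite subset `S` of a group `Γ`, with the word metric
`wd S`. -/
def HypObstructs (Δ : Type) [Group Δ] : Prop :=
  ∀ (Γ : Type) [Group Γ] (S : Set Γ), S.Finite → ∀ ι : Δ →* Γ, Function.Injective ι →
    ι.range ≤ Subgroup.closure S → ∀ n, ¬ WHyperdimLE (wd S) n

theorem taskMain : H812R5.TaskMain := H812R5.Main.main H812R5.Hex.taskHex H812R5.Pig.taskPig

theorem hyp_of_superPoly {Δ : Type} [Group Δ] (h : SuperPoly (⊤ : Subgroup Δ)) :
    HypObstructs Δ := by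
  intro Γ _ S hS ι hι hr n
  refine taskMain Γ S hS (superPoly_map h ι hι ?_) n
  rw [← MonoidHom.range_eq_map]
  exact hr

theorem HypObstructs.mono {Δ Δ' : Type} [Group Δ] [Group Δ'] (h : HypObstructs Δ)
    (f : Δ →* Δ') (hf : Function.Injective f) : HypObstructs Δ' := by
  intro Γ _ S hS ι hι hr n
  refine h Γ S hS (ι.comp f) (hι.comp hf) (le_trans ?_ hr) n
  rintro _ ⟨x, rfl⟩
  exact ⟨f x, rfl⟩

section square

variable {Δ : Type} [Group Δ] (σ : Δ × Δ →* Δ)

/-- The two embeddings. -/
def side : Bool → Δ →* Δ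
  | false => σ.comp (MonoidHom.inl Δ Δ)
  | true => σ.comp (MonoidHom.inr Δ Δ)

/-- The binary system of a group containing its square. -/
def HQ : List Bool → Subgroup Δ
  | [] => ⊤
  | b :: w => (HQ w).map (side σ b)

variable {σ}

theorem side_inj (hσ : Function.Injective σ) (b : Bool) : Function.Injective (side σ b) := by
  intro x y h
  cases b
  · have h1 : σ (x, 1) = σ (y, 1) := h
    exact congrArg Prod.fst (hσ h1)
  · have h1 : σ (1, x) = σ (1, y) := h
    exact congrArg Prod.snd (hσ h1)

theorem binSys_HQ (hσ : Function.Injective σ) : BinSys (HQ σ) where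
  le w b := by
    induction w with
    | nil => exact le_top
    | cons c w ih => exact Subgroup.map_mono ih
  comm w := by
    induction w with
    | nil =>
      rintro _ ⟨x, -, rfl⟩ _ ⟨y, -, rfl⟩
      have h1 : Commute ((x, 1) : Δ × Δ) ((1, y) : Δ × Δ) := by
        show ((x, 1) : Δ × Δ) * (1, y) = (1, y) * (x, 1)
        simp
      exact h1.map σ
    | cons c w ih =>
      rintro _ ⟨x, hx, rfl⟩ _ ⟨y, hy, rfl⟩
      exact (ih x hx y hy).map (side σ c)
  disj w := by
    induction w with
    | nil =>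
      rintro _ ⟨x, -, rfl⟩ ⟨y, -, h⟩
      have h1 : σ (1, y) = σ (x, 1) := h
      have h2 : (1 : Δ) = x := congrArg Prod.fst (hσ h1)
      rw [← h2, map_one]
    | cons c w ih =>
      rintro _ ⟨x, hx, rfl⟩ ⟨y, hy, h⟩
      have h1 : y = x := side_inj hσ c h
      subst h1
      rw [ih y hx hy, map_one]

theorem HQ_fg (hfg : Group.FG Δ) (w : List Bool) : (HQ σ w).FG := by
  classical
  induction w with
  | nil => exact (Group.fg_def).1 hfg
  | cons c w ih =>
    obtain ⟨S, hS⟩ := ih
    refine ⟨S.image (side σ c), ?_⟩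
    rw [Finset.coe_image, ← MonoidHom.map_closure, hS]
    rfl

theorem HQ_infinite [Infinite Δ] (hσ : Function.Injective σ) (w : List Bool) :
    (HQ σ w : Set Δ).Infinite := by
  induction w with
  | nil => exact Set.infinite_univ
  | cons c w ih =>
    have h1 : (HQ σ (c :: w) : Set Δ) = side σ c '' (HQ σ w : Set Δ) := rfl
    rw [h1]
    exact ih.image (side_inj hσ c).injOn

theorem hyp_of_square [Infinite Δ] (hfg : Group.FG Δ) (hσ : Function.Injective σ) :
    HypObstructs Δ :=
  hyp_of_superPoly (superPoly_of_binSys (binSys_HQ hσ) (HQ_fg hfg) (HQ_infinite hσ))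

end square

theorem hyp_of_branch {k : ℕ → ℕ} {G : Subgroup (Equiv.Perm (Bd k))} (hG : IsBranch G)
    (hfg : Group.FG G) : HypObstructs G := by
  refine hyp_of_superPoly (superPoly_of_binSys
    (binSys_HB hG.two_le (MonoidHom.id G) Function.injective_id) (fun w => ?_) (fun w => ?_))
  · have h1 : Group.FG (rist G w.length (pt hG.two_le w)) :=
      (Group.fg_iff_subgroup_fg _).2 (rist_fg hG hfg _ _)
    exact (Group.fg_iff_subgroup_fg _).1 (Group.fg_range _)
  · have h1 : Infinite (rist G w.length (pt hG.two_le w)) :=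
      (rist_infinite hG w.length (pt hG.two_le w)).to_subtype
    have h2 : Function.Injective
        ((MonoidHom.id G).comp (Subgroup.inclusion (rist_le (G := G) w.length
          (pt hG.two_le w)))) :=
      Function.injective_id.comp (Subgroup.inclusion_injective (rist_le (G := G) w.length
        (pt hG.two_le w)))
    exact Set.infinite_range_of_injective h2

end Pool.Agent.Y36.FD
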